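import Pool.Agent.Run7.h919.TF.Iface

/-!
# Existence of modular Tate characters at the level `∏ S`
-/

set_option autoImplicit false
set_option linter.unusedSectionVars false

namespace Run7.h919.TF

open Finset Pool.Agent.H916R2 Pool.Agent.H916T Pool.Agent.H916U Pool.Agent.H916Z Pool.Agent.H916Q Pool.Agent.N992

/-- the number of nonzero squares is odd -/
lemma card_Hf_odd {q : ℕ} [Fact q.Prime] (h3 : q % 4 = 3) : Odd (Hf q).card := by
  classical
  have h1 : (univ : Finset (ZMod q)).erase 0 = Hf q ∪ (Hf q).image Neg.neg := by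
    ext x
    rw [mem_erase, mem_union, mem_image]
    constructor
    · rintro ⟨hx, _⟩
      rcases cover_Hf h3 hx with h | h
      · exact Or.inl h
      · exact Or.inr ⟨-x, h, neg_neg x⟩
    · rintro (h | ⟨y, hy, rfl⟩)
      · exact ⟨(mem_Hf_prime.mp h).1, mem_univ _⟩
      · exact ⟨neg_ne_zero.mpr (mem_Hf_prime.mp hy).1, mem_univ _⟩
  have h2 : Disjoint (Hf q) ((Hf q).image Neg.neg) := by
    rw [disjoint_left]
    rintro x hx hx'
    obtain ⟨y, hy, rfl⟩ := mem_image.mp hx'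
    exact neg_mem_Hf h3 hy hx
  have h4 := congrArg Finset.card h1
  rw [card_erase_of_mem (mem_univ _), card_univ, ZMod.card, card_union_of_disjoint h2,
    card_image_of_injective _ neg_injective] at h4
  rw [Nat.odd_iff]
  omega

/-- the parities of the supports -/
noncomputable def par {m : ℕ} (s : Multiset (ZMod m)) : Finset ℕ → ZMod 2 :=
  fun V => ((s.countP (Supp V) : ℕ) : ZMod 2)

lemma par_add {m : ℕ} (s t : Multiset (ZMod m)) : par (s + t) = par s + par t := by
  funext V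
  simp only [par, Multiset.countP_add, Pi.add_apply, Nat.cast_add]

lemma par_zero {m : ℕ} : par (0 : Multiset (ZMod m)) = 0 := by
  funext V
  simp [par]

lemma supp_neg {m : ℕ} (V : Finset ℕ) (a : ZMod m) : Supp V (-a) ↔ Supp V a := by
  unfold Supp
  rw [addOrderOf_neg]

lemma par_neg {m : ℕ} (s : Multiset (ZMod m)) : par (s.map Neg.neg) = par s := by
  funext V
  unfold par
  congr 1
  rw [Multiset.countP_map, ← Multiset.countP_eq_card_filter]
  exact Multiset.countP_congr rfl fun a _ => propext (supp_neg V a)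

lemma even_iff_par {m : ℕ} (s : Multiset (ZMod m)) (V : Finset ℕ) :
    Even (s.countP (Supp V)) ↔ par s V = 0 := by
  unfold par
  rw [ZMod.natCast_eq_zero_iff, even_iff_two_dvd]

section level

variable {ι : Type} [Fintype ι] [DecidableEq ι] {n : ι → ℕ} [∀ i, NeZero (n i)] {N : ℕ} [NeZero N]

lemma n_inj (hpr : ∀ i, (n i).Prime ∧ n i % 4 = 3) (hco : Pairwise fun i j => (n i).Coprime (n j)) :
    Function.Injective n := by
  intro i j hij
  by_contra hne
  have h : (n i).Coprime (n j) := hco hne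
  rw [hij, Nat.coprime_self] at h
  exact (hpr j).1.one_lt.ne' h

lemma mem_QQ' {T : Finset ι} {x : ∀ i, ZMod (n i)} (hx : x ∈ QQ n T) :
    (∀ i ∈ T, IsUnit (x i)) ∧ ∀ i, i ∉ T → x i = 0 := by
  rw [mem_QQ] at hx
  exact ⟨fun i hi => ((mem_Hf _).1 (hx.1 i hi)).1, hx.2⟩

lemma order_of_supp (_hpr : ∀ i, (n i).Prime ∧ n i % 4 = 3)
    (hco : Pairwise fun i j => (n i).Coprime (n j))
    (E : (∀ i, ZMod (n i)) ≃+* ZMod N) {T : Finset ι} {x : ∀ i, ZMod (n i)}
    (h1 : ∀ i ∈ T, IsUnit (x i)) (h0 : ∀ i, i ∉ T → x i = 0) :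
    addOrderOf (E x) = ∏ i ∈ T, n i := by
  have key : ∀ k : ℕ, addOrderOf (E x) ∣ k ↔ (∏ i ∈ T, n i) ∣ k := by
    intro k
    rw [addOrderOf_dvd_iff_nsmul_eq_zero, ← map_nsmul, map_eq_zero_iff E E.injective]
    constructor
    · intro h
      refine Finset.prod_dvd_of_isRelPrime (fun i _ j _ hij => ?_) (fun i hi => ?_)
      · exact Nat.coprime_iff_isRelPrime.mp (hco hij)
      · have h2 := congrFun h i
        rw [Pi.smul_apply, nsmul_eq_mul, Pi.zero_apply, (h1 i hi).mul_left_eq_zero] at h2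
        exact (ZMod.natCast_eq_zero_iff _ _).mp h2
    · intro h
      funext i
      rw [Pi.smul_apply, nsmul_eq_mul, Pi.zero_apply]
      by_cases hi : i ∈ T
      · rw [(ZMod.natCast_eq_zero_iff _ _).mpr ((Finset.dvd_prod_of_mem n hi).trans h), zero_mul]
      · rw [h0 i hi, mul_zero]
  exact Nat.dvd_antisymm ((key _).mpr dvd_rfl) ((key _).mp dvd_rfl)

lemma supp_QQ (hpr : ∀ i, (n i).Prime ∧ n i % 4 = 3)
    (hco : Pairwise fun i j => (n i).Coprime (n j))
    (E : (∀ i, ZMod (n i)) ≃+* ZMod N) {T : Finset ι} {x : ∀ i, ZMod (n i)} (hx : x ∈ QQ n T) :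
    Supp (T.image n) (E x) := by
  unfold Supp
  rw [order_of_supp hpr hco E (mem_QQ' hx).1 (mem_QQ' hx).2]
  have h1 : ∏ i ∈ T, n i = ∏ q ∈ T.image n, q :=
    (Finset.prod_image (f := fun q => q) fun i _ j _ h => n_inj hpr hco h).symm
  rw [h1]
  refine Nat.primeFactors_prod fun q hq => ?_
  obtain ⟨i, _, rfl⟩ := mem_image.mp hq
  exact (hpr i).1

lemma card_QQ_odd (hpr : ∀ i, (n i).Prime ∧ n i % 4 = 3) (T : Finset ι) : Odd (QQ n T).card := by
  unfold Pool.Agent.N992.QQ
  rw [Fintype.card_piFinset]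
  refine Finset.prod_induction _ Odd (fun a b => Odd.mul) odd_one fun i _ => ?_
  by_cases hi : i ∈ T
  · rw [if_pos hi]
    have : Fact (n i).Prime := ⟨(hpr i).1⟩
    exact card_Hf_odd (hpr i).2
  · rw [if_neg hi, card_singleton]
    exact odd_one

/-- the parity vector of the product of half systems -/
noncomputable def pt (n : ι → ℕ) (T : Finset ι) : Finset ℕ → ZMod 2 :=
  if T = ∅ then 0 else Pi.single (T.image n) 1

lemma par_QQ (hpr : ∀ i, (n i).Prime ∧ n i % 4 = 3)
    (hco : Pairwise fun i j => (n i).Coprime (n j))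
    (E : (∀ i, ZMod (n i)) ≃+* ZMod N) {T : Finset ι} (hT : T ≠ ∅) :
    par ((QQ n T).val.map E) = pt n T := by
  funext V
  unfold pt par
  rw [if_neg hT]
  by_cases hV : V = T.image n
  · subst hV
    rw [Pi.single_eq_same]
    have h1 : ((QQ n T).val.map E).countP (Supp (T.image n)) = (QQ n T).card := by
      rw [Multiset.countP_eq_card.mpr, Multiset.card_map]
      · rfl
      · intro a ha
        obtain ⟨x, hx, rfl⟩ := Multiset.mem_map.mp ha
        exact supp_QQ hpr hco E hx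
    rw [h1]
    exact ZMod.natCast_eq_one_iff_odd.mpr (card_QQ_odd hpr T)
  · rw [Pi.single_eq_of_ne hV]
    have h1 : ((QQ n T).val.map E).countP (Supp V) = 0 := by
      rw [Multiset.countP_eq_zero]
      intro a ha hS
      obtain ⟨x, hx, rfl⟩ := Multiset.mem_map.mp ha
      exact hV (hS.symm.trans (supp_QQ hpr hco E hx))
    rw [h1, Nat.cast_zero]

lemma QQ_modu (hpr : ∀ i, (n i).Prime ∧ n i % 4 = 3)
    (E : (∀ i, ZMod (n i)) ≃+* ZMod N) {T : Finset ι} (hT : T.Nonempty) :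
    Modu N ((QQ n T).val.map E) ∧ (0 : ZMod N) ∉ (QQ n T).val.map E := by
  have h0 : (0 : ZMod N) ∉ (QQ n T).val.map E := by
    intro h
    obtain ⟨x, hx, hx0⟩ := Multiset.mem_map.mp h
    have hx1 : x = 0 := by
      apply E.injective; rw [hx0, map_zero]
    obtain ⟨i, hi⟩ := hT
    have h2 := (mem_QQ' (Finset.mem_val.mp hx)).1 i hi
    rw [hx1] at h2
    exact not_unit_zero' (Or.inl (hpr i)) h2
  have hs := spec_PA E (fun i => Hf (n i)) (fun _ => 1) T (by
    intro i _
    have : Fact (n i).Prime := ⟨(hpr i).1⟩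
    exact spec_odd (hpr i).2 (inc E i) (inc_injective E i))
  rw [Finset.prod_const_one] at hs
  have hmod := hs.modular
  have hfil : ((PA (fun i => Hf (n i)) T).val.map E).filter (fun a => a ≠ 0) =
      (PA (fun i => Hf (n i)) T).val.map E := by
    rw [Multiset.filter_eq_self]
    intro a ha ha0
    exact h0 (ha0 ▸ ha)
  rw [hfil] at hmod
  exact ⟨Modu.single hmod, h0⟩

/-- the pairs (parities, sawtooth sums) of the unions of modular spectra -/
def KP (E : (∀ i, ZMod (n i)) ≃+* ZMod N) :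
    AddSubgroup ((Finset ℕ → ZMod 2) × ((∀ i, ZMod (n i))ˣ → ℤ)) where
  carrier := {z | ∃ s, Modu N s ∧ (0 : ZMod N) ∉ s ∧ par s = z.1 ∧
    ∀ t : (∀ i, ZMod (n i))ˣ, (s.map (fun a => saw (E (t : ∀ i, ZMod (n i)) * a))).sum = z.2 t}
  add_mem' := by
    rintro z w ⟨s, hs, h0, h1, h2⟩ ⟨s', hs', h0', h1', h2'⟩
    refine ⟨s + s', hs.add hs', ?_, ?_, ?_⟩
    · rw [Multiset.mem_add, not_or]; exact ⟨h0, h0'⟩
    · rw [par_add, h1, h1']; rfl
    · intro t
      rw [Multiset.map_add, Multiset.sum_add, h2, h2']; rfl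
  zero_mem' := ⟨0, Modu.zero, by simp, par_zero, by simp⟩
  neg_mem' := by
    rintro z ⟨s, hs, h0, h1, h2⟩
    refine ⟨s.map Neg.neg, hs.neg, ?_, ?_, ?_⟩
    · intro h
      obtain ⟨b, hb, hb0⟩ := Multiset.mem_map.mp h
      exact h0 (by rwa [neg_eq_zero.mp hb0] at hb)
    · rw [par_neg, h1]
      funext V
      show z.1 V = - z.1 V
      exact (ZMod.neg_eq_self_mod_two _).symm
    · intro t
      rw [Multiset.map_map]
      have : (s.map ((fun a => saw (E (t : ∀ i, ZMod (n i)) * a)) ∘ Neg.neg)) =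
          s.map (fun a => - saw (E (t : ∀ i, ZMod (n i)) * a)) :=
        Multiset.map_congr rfl fun a _ => by
          simp only [Function.comp_apply, mul_neg, saw_neg]
      rw [this, Multiset.sum_map_neg, h2]; rfl

/-- the sawtooth sums of the product of half systems -/
noncomputable def FQ (E : (∀ i, ZMod (n i)) ≃+* ZMod N) (T : Finset ι) :
    (∀ i, ZMod (n i))ˣ → ℤ :=
  fun t => ∑ x ∈ QQ n T, saw (E ((t : ∀ i, ZMod (n i)) * x))

lemma mem_KP (hpr : ∀ i, (n i).Prime ∧ n i % 4 = 3)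
    (hco : Pairwise fun i j => (n i).Coprime (n j))
    (E : (∀ i, ZMod (n i)) ≃+* ZMod N) (T : Finset ι) : (pt n T, FQ E T) ∈ KP E := by
  by_cases hT : T = ∅
  · have h1 : (pt n T, FQ E T) = 0 := by
      refine Prod.ext ?_ ?_
      · show pt n T = 0
        unfold pt
        rw [if_pos hT]
      · funext t
        show FQ E T t = 0
        unfold FQ
        refine sum_eq_zero fun x hx => ?_
        have hx0 : x = 0 := by
          funext i
          exact (mem_QQ' hx).2 i (by rw [hT]; exact notMem_empty i)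
        rw [hx0, mul_zero, map_zero, saw_zero]
    rw [h1]
    exact (KP E).zero_mem
  · obtain ⟨h1, h2⟩ := QQ_modu hpr E (Finset.nonempty_iff_ne_empty.mpr hT)
    refine ⟨_, h1, h2, par_QQ hpr hco E hT, fun t => ?_⟩
    rw [Multiset.map_map]
    show _ = ∑ x ∈ QQ n T, saw (E ((t : ∀ i, ZMod (n i)) * x))
    unfold Finset.sum
    congr 1
    apply Multiset.map_congr rfl
    intro x _
    simp only [Function.comp_apply, map_mul]

lemma W_oddDist {p : ℕ} (hp : p.Coprime N) : OddDist (fun a : ZMod N => W p a) where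
  neg := fun a => W_neg p a
  half := fun a ha => W_half p ha
  dist := fun q d _ hqd a => by
    have h := W_dist_unit hp hqd 1 a
    simpa using h

/-- the unit `p` -/
noncomputable def up (n : ι → ℕ) {p : ℕ} (hp : ∀ i, p.Coprime (n i)) : (∀ i, ZMod (n i))ˣ :=
  MulEquiv.piUnits.symm (fun i => ZMod.unitOfCoprime p (hp i))

lemma up_val {p : ℕ} (hp : ∀ i, p.Coprime (n i)) :
    ((up n hp : (∀ i, ZMod (n i))ˣ) : ∀ i, ZMod (n i)) = ((p : ℕ) : ∀ i, ZMod (n i)) := by
  funext i
  have : ((up n hp : (∀ i, ZMod (n i))ˣ) : ∀ i, ZMod (n i)) i =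
      ((ZMod.unitOfCoprime p (hp i) : (ZMod (n i))ˣ) : ZMod (n i)) := rfl
  rw [this, ZMod.coe_unitOfCoprime]
  rfl

/-- the average over the powers of `u` -/
def Av (u : (∀ i, ZMod (n i))ˣ) (f : ℕ) :
    ((∀ i, ZMod (n i))ˣ → ℤ) →+ ((∀ i, ZMod (n i))ˣ → ℤ) where
  toFun := fun g t => ∑ j ∈ range f, g (u ^ j * t)
  map_zero' := by
    funext t
    simp
  map_add' := by
    intro g g'
    funext t
    simp only [Pi.add_apply, sum_add_distrib]

lemma Av_FQ (E : (∀ i, ZMod (n i)) ≃+* ZMod N) {p : ℕ} (hp : ∀ i, p.Coprime (n i))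
    (T : Finset ι) (t : (∀ i, ZMod (n i))ˣ) :
    Av (up n hp) (orderOf (p : ZMod N)) (FQ E T) t =
      ∑ x ∈ QQ n T, W p (E ((t : ∀ i, ZMod (n i)) * x)) := by
  show ∑ j ∈ range (orderOf (p : ZMod N)), ∑ x ∈ QQ n T,
    saw (E ((((up n hp) ^ j * t : (∀ i, ZMod (n i))ˣ) : ∀ i, ZMod (n i)) * x)) = _
  rw [sum_comm]
  refine sum_congr rfl fun x _ => ?_
  unfold W
  refine sum_congr rfl fun j _ => ?_
  congr 1
  rw [Units.val_mul, Units.val_pow_eq_pow_val, up_val, mul_assoc, map_mul, map_pow, map_natCast]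

/-- the first step: a union of modular spectra with the relation -/
lemma step_one (hav : S_AVR) (hpr : ∀ i, (n i).Prime ∧ n i % 4 = 3)
    (hco : Pairwise fun i j => (n i).Coprime (n j)) (hN : ∏ i, n i = N)
    (E : (∀ i, ZMod (n i)) ≃+* ZMod N) {p : ℕ} (hp : p.Coprime N)
    (hne : Nonempty ι)
    (hcase : Even (Fintype.card ι) ∨
      Odd (univ.filter (fun i => ¬ IsSquare ((p : ℕ) : ZMod (n i)))).card) :
    ∃ s : Multiset (ZMod N), Modu N s ∧ (0 : ZMod N) ∉ s ∧ par s (univ.image n) = 1 ∧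
      (∀ V, par s V ≠ 0 → V ⊆ univ.image n) ∧ Rel0 p s := by
  classical
  have hn : Adm n := fun i => Or.inl (hpr i)
  have hpi : ∀ i, p.Coprime (n i) := fun i =>
    Nat.Coprime.coprime_dvd_right (hN ▸ Finset.dvd_prod_of_mem n (mem_univ i)) hp
  have h1 := hav ι n hn hco (fun x => W p (E x)) (piDist_of hn hco hN E (W_oddDist hp))
    (up n hpi) (by
      intro x
      show W p (E _) = W p (E x)
      rw [up_val, map_mul, map_natCast, W_mul])
    univ (univ.filter (fun i => ¬ IsSquare ((p : ℕ) : ZMod (n i)))) (filter_subset _ _)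
    (by
      intro i _
      rw [mem_filter, up_val]
      simp)
    (by rw [card_univ]; exact hcase)
  set X : Set ((Finset ℕ → ZMod 2) × ((∀ i, ZMod (n i))ˣ → ℤ)) :=
    {z | ∃ T : Finset ι, T ⊂ univ ∧ z = (pt n T, FQ E T)} with hX
  set A : ((Finset ℕ → ZMod 2) × ((∀ i, ZMod (n i))ˣ → ℤ)) →+ ((∀ i, ZMod (n i))ˣ → ℤ) :=
    (Av (up n hpi) (orderOf (p : ZMod N))).comp (AddMonoidHom.snd _ _) with hA
  have hAT : ∀ T : Finset ι, A (pt n T, FQ E T) =
      fun t : (∀ i, ZMod (n i))ˣ => ∑ x ∈ QQ n T, W p (E ((t : ∀ i, ZMod (n i)) * x)) := by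
    intro T
    funext t
    exact Av_FQ E hpi T t
  have h2 : {f : (∀ i, ZMod (n i))ˣ → ℤ | ∃ T : Finset ι, T ⊂ univ ∧
        f = fun t : (∀ i, ZMod (n i))ˣ => ∑ x ∈ QQ n T, W p (E ((t : ∀ i, ZMod (n i)) * x))} =
      A '' X := by
    ext f
    constructor
    · rintro ⟨T, h, rfl⟩; exact ⟨_, ⟨T, h, rfl⟩, hAT T⟩
    · rintro ⟨_, ⟨T, h, rfl⟩, rfl⟩; exact ⟨T, h, hAT T⟩
  rw [h2, ← AddMonoidHom.map_closure] at h1
  obtain ⟨z, hz, hz2⟩ := h1
  have hzK : z ∈ KP E := by
    refine (AddSubgroup.closure_le (K := KP E)).mpr ?_ hz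
    rintro _ ⟨T, _, rfl⟩
    exact mem_KP hpr hco E T
  -- the parities of `z`
  have hzp : ∀ V, z.1 V ≠ 0 → V ⊂ univ.image n := by
    let P : AddSubgroup ((Finset ℕ → ZMod 2) × ((∀ i, ZMod (n i))ˣ → ℤ)) :=
      { carrier := {w | ∀ V, ¬ V ⊂ univ.image n → w.1 V = 0}
        add_mem' := by
          intro a b ha hb V hV
          show a.1 V + b.1 V = 0
          rw [ha V hV, hb V hV, add_zero]
        zero_mem' := fun V _ => rfl
        neg_mem' := by
          intro a ha V hV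
          show - a.1 V = 0
          rw [ha V hV, neg_zero] }
    have hP : z ∈ P := by
      refine (AddSubgroup.closure_le (K := P)).mpr ?_ hz
      rintro _ ⟨T, hT, rfl⟩ V hV
      show pt n T V = 0
      unfold pt
      by_cases hT0 : T = ∅
      · rw [if_pos hT0]; rfl
      · rw [if_neg hT0, Pi.single_eq_of_ne]
        rintro rfl
        apply hV
        exact (Finset.image_ssubset_image (n_inj hpr hco)).mpr hT
    intro V hV
    by_contra hcon
    exact hV (hP V hcon)
  obtain ⟨s, hs, hs0, hs1, hs2⟩ := (KP E).sub_mem (mem_KP hpr hco E univ) hzK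
  refine ⟨s, hs, hs0, ?_, ?_, ?_⟩
  · rw [hs1]
    show pt n univ (univ.image n) - z.1 (univ.image n) = 1
    have h3 : z.1 (univ.image n) = 0 := by
      by_contra hcon
      exact (hzp _ hcon).2 (Subset.refl _)
    rw [h3, sub_zero]
    unfold pt
    rw [if_neg (Finset.univ_nonempty (α := ι)).ne_empty, Pi.single_eq_same]
  · intro V hV
    rw [hs1] at hV
    have hV' : pt n univ V - z.1 V ≠ 0 := hV
    by_cases h3 : z.1 V = 0
    · rw [h3, sub_zero] at hV'
      unfold pt at hV'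
      rw [if_neg (Finset.univ_nonempty (α := ι)).ne_empty] at hV'
      by_contra hcon
      apply hV'
      rw [Pi.single_eq_of_ne]
      rintro rfl
      exact hcon (Subset.refl _)
    · exact (hzp V h3).1
  · intro t
    obtain ⟨u, hu⟩ : ∃ u : (∀ i, ZMod (n i))ˣ, E (u : ∀ i, ZMod (n i)) = (t : ZMod N) := by
      refine ⟨Units.mapEquiv E.symm.toMulEquiv t, ?_⟩
      simp
    have h3 : (s.map fun a => W p ((t : ZMod N) * a)).sum =
        Av (up n hpi) (orderOf (p : ZMod N))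
          (fun t => (s.map (fun a => saw (E (t : ∀ i, ZMod (n i)) * a))).sum) u := by
      show _ = ∑ j ∈ range (orderOf (p : ZMod N)), (s.map (fun a =>
        saw (E (((up n hpi) ^ j * u : (∀ i, ZMod (n i))ˣ) : ∀ i, ZMod (n i)) * a))).sum
      have hgen : ∀ s : Multiset (ZMod N), (s.map fun a => W p ((t : ZMod N) * a)).sum =
          ∑ j ∈ range (orderOf (p : ZMod N)), (s.map (fun a =>
            saw (E (((up n hpi) ^ j * u : (∀ i, ZMod (n i))ˣ) : ∀ i, ZMod (n i)) * a))).sum := by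
        intro s
        induction s using Multiset.induction_on with
        | empty => simp
        | cons a s ih =>
          rw [Multiset.map_cons, Multiset.sum_cons, ih]
          unfold W
          rw [← sum_add_distrib]
          refine sum_congr rfl fun j _ => ?_
          rw [Multiset.map_cons, Multiset.sum_cons, Units.val_mul, Units.val_pow_eq_pow_val, up_val,
            map_mul, map_pow, map_natCast, hu, mul_assoc]
      exact hgen s
    have h4 : (fun t : (∀ i, ZMod (n i))ˣ =>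
        (s.map (fun a => saw (E (t : ∀ i, ZMod (n i)) * a))).sum) = FQ E univ - z.2 := by
      funext t
      exact hs2 t
    rw [h3, h4, map_sub, Pi.sub_apply, Av_FQ]
    have h5 : A z u = ∑ x ∈ QQ n univ, W p (E ((u : ∀ i, ZMod (n i)) * x)) :=
      congrFun hz2 u
    have h6 : A z u = Av (up n hpi) (orderOf (p : ZMod N)) z.2 u := rfl
    rw [← h5, h6, sub_self]

lemma W_one_gen {p : ℕ} (hp : p.Coprime N) {s : Multiset (ZMod N)} (h0 : (0 : ZMod N) ∉ s)
    (hs : Rel0 p s) : Even (orderOf (p : ZMod N) * (N * Multiset.card s)) := by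
  have h1 := val_sum_eq hp s h0 1
  rw [hs 1] at h1
  have h2 := sub_eq_zero.mp h1.symm
  have h3 : 2 * ∑ j ∈ Finset.range (orderOf (p : ZMod N)),
      (s.map fun a => ((p : ZMod N) ^ j * (((1 : (ZMod N)ˣ) : ZMod N) * a)).val).sum =
      orderOf (p : ZMod N) * (N * Multiset.card s) := by
    exact_mod_cast h2
  rw [← h3]
  exact even_two_mul _

lemma prod_odd_of (hpr : ∀ i, (n i).Prime ∧ n i % 4 = 3) (hN : ∏ i, n i = N) : Odd N := by
  rw [← hN]
  refine Finset.prod_induction _ Odd (fun a b => Odd.mul) odd_one fun i _ => ?_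
  rw [Nat.odd_iff]
  have := (hpr i).2
  omega

lemma order_odd (hpr : ∀ i, (n i).Prime ∧ n i % 4 = 3) (hN : ∏ i, n i = N)
    (E : (∀ i, ZMod (n i)) ≃+* ZMod N) {p : ℕ} (hp : p.Coprime N)
    (hsq : ∀ i, IsSquare ((p : ℕ) : ZMod (n i))) : Odd (orderOf (p : ZMod N)) := by
  have h1 : (p : ZMod N) ^ (∏ i, (n i / 2)) = 1 := by
    have h2 : ((p : ℕ) : ∀ i, ZMod (n i)) ^ (∏ i, (n i / 2)) = 1 := by
      funext i
      rw [Pi.pow_apply, Pi.one_apply]
      have hf : Fact (n i).Prime := ⟨(hpr i).1⟩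
      have hpi : p.Coprime (n i) :=
        Nat.Coprime.coprime_dvd_right (hN ▸ Finset.dvd_prod_of_mem n (mem_univ i)) hp
      have h3 : ((p : ℕ) : ZMod (n i)) ≠ 0 := by
        intro h
        rw [ZMod.natCast_eq_zero_iff] at h
        have h4 := Nat.dvd_gcd h dvd_rfl
        rw [hpi.gcd_eq_one] at h4
        exact (hpr i).1.one_lt.ne' (Nat.dvd_one.mp h4)
      have h4 := (ZMod.euler_criterion (n i) h3).mp (hsq i)
      obtain ⟨k, hk⟩ := Finset.dvd_prod_of_mem (fun i => n i / 2) (mem_univ i)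
      have h5 : (((p : ℕ) : ∀ i, ZMod (n i)) i) = ((p : ℕ) : ZMod (n i)) := rfl
      rw [h5, hk, pow_mul, h4, one_pow]
    have h6 := congrArg E h2
    rwa [map_pow, map_natCast, map_one] at h6
  have h2 : orderOf (p : ZMod N) ∣ ∏ i, (n i / 2) := orderOf_dvd_of_pow_eq_one h1
  refine Odd.of_dvd_nat ?_ h2
  refine Finset.prod_induction _ Odd (fun a b => Odd.mul) odd_one fun i _ => ?_
  rw [Nat.odd_iff]
  have := (hpr i).2
  omega

/-- the half system at a dead prime -/
lemma dead_rel (hpr : ∀ i, (n i).Prime ∧ n i % 4 = 3)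
    (hN : ∏ i, n i = N) (E : (∀ i, ZMod (n i)) ≃+* ZMod N) {p : ℕ} (hp : p.Coprime N)
    {l : ι} (hl : ¬ IsSquare ((p : ℕ) : ZMod (n l))) :
    Rel0 p ((Pool.Agent.N992.QQ n {l}).val.map E) := by
  have hf : Fact (n l).Prime := ⟨(hpr l).1⟩
  have hpi : p.Coprime (n l) :=
    Nat.Coprime.coprime_dvd_right (hN ▸ Finset.dvd_prod_of_mem n (mem_univ l)) hp
  have h3 : ((p : ℕ) : ZMod (n l)) ≠ 0 := by
    intro h
    rw [ZMod.natCast_eq_zero_iff] at h
    have h4 := Nat.dvd_gcd h dvd_rfl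
    rw [hpi.gcd_eq_one] at h4
    exact (hpr l).1.one_lt.ne' (Nat.dvd_one.mp h4)
  have h4 : ((p : ℕ) : ZMod (n l)) ^ (n l / 2) = -1 := by
    rcases ZMod.pow_div_two_eq_neg_one_or_one (n l) h3 with h | h
    · exact absurd ((ZMod.euler_criterion (n l) h3).mpr h) hl
    · exact h
  have h5 : ∀ x ∈ Pool.Agent.N992.QQ n {l}, ∀ t : (ZMod N)ˣ, W p ((t : ZMod N) * E x) = 0 := by
    intro x hx
    refine Pool.Agent.H916Y.pw_of_pow (j := n l / 2) ?_
    have h6 : ((p : ℕ) : ∀ i, ZMod (n i)) ^ (n l / 2) * x = -x := by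
      funext i
      rw [Pi.mul_apply, Pi.pow_apply, Pi.neg_apply]
      by_cases hi : i = l
      · subst hi
        have h7 : (((p : ℕ) : ∀ i, ZMod (n i)) i) = ((p : ℕ) : ZMod (n i)) := rfl
        rw [h7, h4, neg_one_mul]
      · rw [(mem_QQ' hx).2 i (by rw [mem_singleton]; exact hi), mul_zero, neg_zero]
    have h8 := congrArg E h6
    rwa [map_mul, map_pow, map_natCast, map_neg] at h8
  intro t
  rw [Multiset.map_map]
  refine Multiset.sum_eq_zero fun y hy => ?_
  obtain ⟨x, hx, rfl⟩ := Multiset.mem_map.mp hy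
  exact h5 x hx t

/-- the second step: an even number of entries -/
lemma step_two (hav : S_AVR) (hpr : ∀ i, (n i).Prime ∧ n i % 4 = 3)
    (hco : Pairwise fun i j => (n i).Coprime (n j)) (hN : ∏ i, n i = N)
    (E : (∀ i, ZMod (n i)) ≃+* ZMod N) {p : ℕ} (hp : p.Coprime N)
    (hex : ∃ i, IsSquare ((p : ℕ) : ZMod (n i)))
    (hcase : Even (Fintype.card ι) ∨
      Odd (univ.filter (fun i => ¬ IsSquare ((p : ℕ) : ZMod (n i)))).card) :
    ∃ s : Multiset (ZMod N), Modu N s ∧ (0 : ZMod N) ∉ s ∧ par s (univ.image n) = 1 ∧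
      (∀ V, par s V ≠ 0 → V ⊆ univ.image n) ∧ Rel0 p s ∧ Even (Multiset.card s) := by
  obtain ⟨i0, hi0⟩ := hex
  obtain ⟨s, h1, h2, h3, h4, h5⟩ := step_one hav hpr hco hN E hp ⟨i0⟩ hcase
  by_cases he : Even (Multiset.card s)
  · exact ⟨s, h1, h2, h3, h4, h5, he⟩
  by_cases hl : ∃ l, ¬ IsSquare ((p : ℕ) : ZMod (n l))
  · obtain ⟨l, hl⟩ := hl
    have hne : ({l} : Finset ι) ≠ ∅ := (Finset.singleton_nonempty l).ne_empty
    obtain ⟨g1, g2⟩ := QQ_modu hpr E (Finset.singleton_nonempty l)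
    have g3 := par_QQ hpr hco E hne
    have g4 : pt n {l} = Pi.single ({n l} : Finset ℕ) 1 := by
      unfold pt
      rw [if_neg hne, image_singleton]
    have hil : i0 ≠ l := fun h => hl (h ▸ hi0)
    refine ⟨s + (Pool.Agent.N992.QQ n {l}).val.map E, h1.add g1, ?_, ?_, ?_, h5.add (dead_rel hpr hN E hp hl), ?_⟩
    · rw [Multiset.mem_add, not_or]; exact ⟨h2, g2⟩
    · rw [par_add, Pi.add_apply, h3, g3, g4, Pi.single_eq_of_ne, add_zero]
      intro h
      have h6 : n i0 ∈ ({n l} : Finset ℕ) := by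
        rw [← h]; exact mem_image_of_mem n (mem_univ i0)
      exact hil (n_inj hpr hco (mem_singleton.mp h6))
    · intro V hV
      rw [par_add, Pi.add_apply, g3, g4] at hV
      by_cases h6 : V = {n l}
      · rw [h6, singleton_subset_iff]
        exact mem_image_of_mem n (mem_univ l)
      · rw [Pi.single_eq_of_ne h6, add_zero] at hV
        exact h4 V hV
    · rw [Multiset.card_add, Multiset.card_map]
      rw [Nat.not_even_iff_odd] at he
      exact he.add_odd (card_QQ_odd hpr {l})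
  · push Not at hl
    exfalso
    have h6 := W_one_gen hp h2 h5
    have h7 := order_odd hpr hN E hp hl
    have h8 := prod_odd_of hpr hN
    rw [Nat.even_mul, Nat.even_mul] at h6
    rcases h6 with h | h | h
    · exact (Nat.not_even_iff_odd.mpr h7) h
    · exact (Nat.not_even_iff_odd.mpr h8) h
    · exact he h

lemma Modu_nsmul {s : Multiset (ZMod N)} (hs : Modu N s) (k : ℕ) : Modu N (k • s) := by
  induction k with
  | zero => rw [zero_smul]; exact Modu.zero
  | succ k ih => rw [succ_nsmul]; exact ih.add hs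

lemma par_nsmul {s : Multiset (ZMod N)} {k : ℕ} (hk : Odd k) : par (k • s) = par s := by
  funext V
  unfold par
  rw [Multiset.countP_nsmul, Nat.cast_mul, ZMod.natCast_eq_one_iff_odd.mpr hk, one_mul]

theorem exn_abs (hav : S_AVR) (hpr : ∀ i, (n i).Prime ∧ n i % 4 = 3)
    (hco : Pairwise fun i j => (n i).Coprime (n j)) (hN : ∏ i, n i = N)
    (E : (∀ i, ZMod (n i)) ≃+* ZMod N) {p : ℕ} (hp : p.Coprime N)
    (hex : ∃ i, IsSquare ((p : ℕ) : ZMod (n i)))
    (hcase : Even (Fintype.card ι) ∨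
      Odd (univ.filter (fun i => ¬ IsSquare ((p : ℕ) : ZMod (n i)))).card) :
    ∃ h : Multiset (ZMod N), ModularTate p N h ∧ ¬ Even (h.countP (Supp (univ.image n))) ∧
      ∀ V : Finset ℕ, ¬ Even (h.countP (Supp V)) → V ⊆ univ.image n := by
  obtain ⟨s, h1, h2, h3, h4, h5, h6⟩ := step_two hav hpr hco hN E hp hex hcase
  have hNo := prod_odd_of hpr hN
  have hN0 : N ≠ 0 := NeZero.ne N
  refine ⟨N • s, ⟨isTate_of_W hp ?_ ?_ ?_ ?_, Modu_nsmul h1 N⟩, ?_, ?_⟩
  · intro h
    exact h2 (Multiset.mem_of_mem_nsmul h)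
  · rw [Multiset.card_nsmul]
    exact h6.mul_left _
  · rw [Multiset.sum_nsmul, nsmul_eq_mul, ZMod.natCast_self, zero_mul]
  · intro t
    rw [Multiset.map_nsmul, Multiset.sum_nsmul, h5 t, smul_zero]
  · rw [even_iff_par, par_nsmul hNo, h3]
    exact one_ne_zero
  · intro V hV
    rw [even_iff_par, par_nsmul hNo] at hV
    exact h4 V hV

end level

lemma jac_one_iff {p q : ℕ} (hq : q.Prime) (hpq : p.Coprime q) :
    jacobiSym p q = 1 ↔ IsSquare ((p : ℕ) : ZMod q) := by
  have hf : Fact q.Prime := ⟨hq⟩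
  have h3 : ((p : ℤ) : ZMod q) ≠ 0 := by
    intro h
    rw [Int.cast_natCast, ZMod.natCast_eq_zero_iff] at h
    have h4 := Nat.dvd_gcd h dvd_rfl
    rw [hpq.gcd_eq_one] at h4
    exact hq.one_lt.ne' (Nat.dvd_one.mp h4)
  rw [← jacobiSym.legendreSym.to_jacobiSym, legendreSym.eq_one_iff q h3]
  simp

lemma jac_neg_of {p q : ℕ} (hq : q.Prime) (_hpq : p.Coprime q)
    (h : ¬ IsSquare ((p : ℕ) : ZMod q)) : jacobiSym p q = -1 := by
  have hf : Fact q.Prime := ⟨hq⟩
  rw [← jacobiSym.legendreSym.to_jacobiSym, legendreSym.eq_neg_one_iff]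
  simpa using h

lemma jac_prod {ι : Type} (n : ι → ℕ) (p : ℕ) (T : Finset ι) (h0 : ∀ i, n i ≠ 0) :
    jacobiSym p (∏ i ∈ T, n i) = ∏ i ∈ T, jacobiSym p (n i) := by
  classical
  induction T using Finset.induction_on with
  | empty => simp
  | insert i T hi ih =>
    rw [prod_insert hi, prod_insert hi, ← ih]
    have h1 : NeZero (n i) := ⟨h0 i⟩
    have h2 : NeZero (∏ i ∈ T, n i) := ⟨prod_ne_zero_iff.mpr fun j _ => h0 j⟩
    rw [jacobiSym.mul_right]

lemma jac_prod_card {ι : Type} [Fintype ι] (n : ι → ℕ) [∀ i, NeZero (n i)] (p : ℕ) (hpr : ∀ i, (n i).Prime)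
    (hp : ∀ i, p.Coprime (n i)) :
    jacobiSym p (∏ i, n i) =
      (-1) ^ (univ.filter (fun i => ¬ IsSquare ((p : ℕ) : ZMod (n i)))).card := by
  classical
  rw [jac_prod n p univ fun i => (hpr i).ne_zero, ← prod_filter_mul_prod_filter_not univ
    (fun i => ¬ IsSquare ((p : ℕ) : ZMod (n i)))]
  have h1 : ∏ i ∈ univ.filter (fun i => ¬ ¬ IsSquare ((p : ℕ) : ZMod (n i))), jacobiSym p (n i) = 1 := by
    refine prod_eq_one fun i hi => ?_
    rw [mem_filter, not_not] at hi
    exact (jac_one_iff (hpr i) (hp i)).mpr hi.2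
  rw [h1, mul_one, ← prod_const]
  refine prod_congr rfl fun i hi => ?_
  rw [mem_filter] at hi
  exact jac_neg_of (hpr i) (hp i) hi.2

theorem t_EXN : S_AVR → S_EXN := by
  intro hav p S hS hNZ hp hex hcase
  classical
  let n : {q // q ∈ S} → ℕ := fun q => q
  have hpr : ∀ i, (n i).Prime ∧ n i % 4 = 3 := fun i => hS i i.2
  have hz : ∀ i, NeZero (n i) := fun i => ⟨(hpr i).1.ne_zero⟩
  have hco : Pairwise fun i j => (n i).Coprime (n j) := by
    intro i j hij
    exact (Nat.coprime_primes (hpr i).1 (hpr j).1).mpr fun h => hij (Subtype.ext h)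
  have hN : ∏ i, n i = ∏ q ∈ S, q := Finset.prod_coe_sort S (fun q => q)
  have hpi : ∀ i, p.Coprime (n i) := fun i =>
    Nat.Coprime.coprime_dvd_right (hN ▸ Finset.dvd_prod_of_mem n (mem_univ i)) hp
  have hE : Nonempty ((∀ i, ZMod (n i)) ≃+* ZMod (∏ q ∈ S, q)) := by
    rw [← hN]
    exact ⟨(ZMod.prodEquivPi n hco).symm⟩
  obtain ⟨E⟩ := hE
  have him : univ.image n = S := by
    ext q
    rw [mem_image]
    constructor
    · rintro ⟨i, _, rfl⟩; exact i.2
    · intro hq; exact ⟨⟨q, hq⟩, mem_univ _, rfl⟩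
  have h := exn_abs hav hpr hco hN E hp
    (by
      obtain ⟨q, hq, hq1⟩ := hex
      exact ⟨⟨q, hq⟩, (jac_one_iff (hS q hq).1 (hpi ⟨q, hq⟩)).mp hq1⟩)
    (by
      rcases hcase with h | h
      · left
        rw [Fintype.card_coe]
        exact h
      · right
        rw [← hN, jac_prod_card n p (fun i => (hpr i).1) hpi] at h
        by_contra hcon
        rw [Nat.not_odd_iff_even] at hcon
        rw [hcon.neg_one_pow] at h
        norm_num at h)
  rw [him] at h
  exact h

end Run7.h919.TF
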