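import Pool.Agent.Run7.h919.TF.Iface2
import Pool.Agent.Run7.h919.TF.EXN

/-!
# Modular characters of characteristic zero of level `4 ∏ S`
-/

set_option autoImplicit false
set_option linter.unusedSectionVars false

namespace Run7.h919.TF

open Finset Pool.Agent.H916R2 Pool.Agent.H916T Pool.Agent.H916U Pool.Agent.H916Z Pool.Agent.H916Q Pool.Agent.N992

lemma isTate_of_isHodge {p m : ℕ} [NeZero m] (hp : p.Coprime m) {s : Multiset (ZMod m)}
    (hs : IsHodge m s) : IsTate p m s := by
  refine isTate_of_W hp hs.1 hs.2.1 hs.2.2.1 fun t => ?_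
  have hgen : ∀ s : Multiset (ZMod m), (s.map fun a => W p ((t : ZMod m) * a)).sum =
      ∑ j ∈ range (orderOf (p : ZMod m)),
        (s.map fun a => saw ((((isUnit_p hp).unit ^ j * t : (ZMod m)ˣ) : ZMod m) * a)).sum := by
    intro s
    induction s using Multiset.induction_on with
    | empty => simp
    | cons a s ih =>
      rw [Multiset.map_cons, Multiset.sum_cons, ih]
      unfold W
      rw [← sum_add_distrib]
      refine sum_congr rfl fun j _ => ?_
      rw [Multiset.map_cons, Multiset.sum_cons]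
      simp only [Units.val_mul, Units.val_pow_eq_pow_val, IsUnit.unit_spec, mul_assoc]
  rw [hgen]
  exact sum_eq_zero fun j _ => hs.saw_sum _

lemma isHodge_add' {m : ℕ} {s t : Multiset (ZMod m)} (hs : IsHodge m s) (ht : IsHodge m t) :
    IsHodge m (s + t) := by
  refine ⟨?_, ?_, ?_, fun u => ?_⟩
  · rw [Multiset.mem_add, not_or]; exact ⟨hs.1, ht.1⟩
  · rw [Multiset.card_add]; exact hs.2.1.add ht.2.1
  · rw [Multiset.sum_add, hs.2.2.1, ht.2.2.1, add_zero]
  · rw [Multiset.map_add, Multiset.sum_add, mul_add, hs.2.2.2 u, ht.2.2.2 u, Multiset.card_add,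
      mul_add]

/-- balanced unions have the values of modular characters, for distributions with values killed by two -/
lemma modular_of_balanced {N : ℕ} [NeZero N] {Q : Type} [AddCommGroup Q] (h2 : ∀ x : Q, - x = x)
    {c : ZMod N → Q} (hc : OddDist c) {s : Multiset (ZMod N)} (hs : Modu N s)
    (hsaw : ∀ t : (ZMod N)ˣ, (s.map fun a => saw ((t : ZMod N) * a)).sum = 0) :
    ∃ s' : Multiset (ZMod N), (s' = 0 ∨ ModularCharacter N s') ∧ (s'.map c).sum = (s.map c).sum := by
  set H : AddSubgroup Q := AddSubgroup.closure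
    {x | ∃ s' : Multiset (ZMod N), ModularCharacter N s' ∧ x = (s'.map c).sum} with hH
  set f : Q →+ Q ⧸ H := QuotientAddGroup.mk' H with hf
  have hc' : OddDist (fun a => f (c a)) :=
    { neg := fun a => by rw [hc.neg, map_neg]
      half := fun a ha => by rw [hc.half a ha, map_zero]
      dist := fun p d hp hpd a => by rw [← map_sum, hc.dist p d hp hpd a] }
  have hmap : ∀ s : Multiset (ZMod N), (s.map fun a => f (c a)).sum = f (s.map c).sum := by
    intro s
    rw [map_multiset_sum, Multiset.map_map]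
    rfl
  have h1 : (s.map fun a => f (c a)).sum = 0 := by
    refine kill_of_balanced hc' (fun s' hs' => ?_) hs hsaw
    rw [hmap]
    exact (QuotientAddGroup.eq_zero_iff _).mpr (AddSubgroup.subset_closure ⟨s', hs', rfl⟩)
  rw [hmap] at h1
  have h3 : (s.map c).sum ∈ H := (QuotientAddGroup.eq_zero_iff _).mp h1
  have key : ∀ x ∈ H, ∃ s' : Multiset (ZMod N), (s' = 0 ∨ ModularCharacter N s') ∧
      (s'.map c).sum = x := by
    intro x hx
    refine AddSubgroup.closure_induction (p := fun x _ => ∃ s' : Multiset (ZMod N),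
      (s' = 0 ∨ ModularCharacter N s') ∧ (s'.map c).sum = x) ?_ ?_ ?_ ?_ hx
    · rintro x ⟨s', hs', rfl⟩
      exact ⟨s', Or.inr hs', rfl⟩
    · exact ⟨0, Or.inl rfl, by simp⟩
    · rintro x y _ _ ⟨a, ha, rfl⟩ ⟨b, hb, rfl⟩
      refine ⟨a + b, ?_, by rw [Multiset.map_add, Multiset.sum_add]⟩
      rcases ha with rfl | ha
      · rcases hb with rfl | hb
        · left; simp
        · right; rw [zero_add]; exact hb
      · rcases hb with rfl | hb
        · right; rw [add_zero]; exact ha
        · right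
          have hM : Modu N (a + b) := Modu.add ha.2 hb.2
          exact ⟨isHodge_add' ha.1 hb.1, hM⟩
    · rintro x _ ⟨a, ha, rfl⟩
      exact ⟨a, ha, (h2 _).symm⟩
  exact key _ h3

section level

variable {ι : Type} [Fintype ι] [LinearOrder ι] {n : ι → ℕ} [∀ i, NeZero (n i)] {N : ℕ} [NeZero N]

lemma adm_unit {n : ι → ℕ} [∀ i, NeZero (n i)] {T : Finset ι} {x : ∀ i, ZMod (n i)}
    (hx : x ∈ Pool.Agent.N992.QQ n T) :
    (∀ i ∈ T, IsUnit (x i)) ∧ ∀ i, i ∉ T → x i = 0 := by
  rw [mem_QQ] at hx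
  exact ⟨fun i hi => ((mem_Hf _).1 (hx.1 i hi)).1, hx.2⟩

lemma order_gen (hco : Pairwise fun i j => (n i).Coprime (n j))
    (E : (∀ i, ZMod (n i)) ≃+* ZMod N) {T : Finset ι} {x : ∀ i, ZMod (n i)}
    (h1 : ∀ i ∈ T, IsUnit (x i)) (h0 : ∀ i, i ∉ T → x i = 0) :
    addOrderOf (E x) = ∏ i ∈ T, n i := by
  have key : ∀ k : ℕ, addOrderOf (E x) ∣ k ↔ (∏ i ∈ T, n i) ∣ k := by
    intro k
    rw [addOrderOf_dvd_iff_nsmul_eq_zero, ← map_nsmul, map_eq_zero_iff E E.injective]
    constructor
    · intro h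
      refine Finset.prod_dvd_of_isRelPrime (fun i _ j _ hij => ?_) (fun i hi => ?_)
      · exact Nat.coprime_iff_isRelPrime.mp (hco hij)
      · have h2 := congrFun h i
        rw [Pi.smul_apply, nsmul_eq_mul, Pi.zero_apply, (h1 i hi).mul_left_eq_zero] at h2
        exact (ZMod.natCast_eq_zero_iff _ _).mp h2
    · intro h
      funext i
      rw [Pi.smul_apply, nsmul_eq_mul, Pi.zero_apply]
      by_cases hi : i ∈ T
      · rw [(ZMod.natCast_eq_zero_iff _ _).mpr ((Finset.dvd_prod_of_mem n hi).trans h), zero_mul]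
      · rw [h0 i hi, mul_zero]
  exact Nat.dvd_antisymm ((key _).mpr dvd_rfl) ((key _).mp dvd_rfl)

/-- the value of the distribution on the product of half systems -/
lemma cp_QQ (i4 : ι) (h4 : n i4 = 4) (hpr : ∀ i, i ≠ i4 → (n i).Prime ∧ n i % 4 = 3)
    (hco : Pairwise fun i j => (n i).Coprime (n j))
    (E : (∀ i, ZMod (n i)) ≃+* ZMod N) (T : Finset ι) :
    ∑ x ∈ Pool.Agent.N992.QQ n T, cp (E x) =
      if i4 ∈ T ∨ T = ∅ then 0 else Pi.single (T.image n) 1 := by
  classical
  by_cases hT : i4 ∈ T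
  · rw [if_pos (Or.inl hT)]
    refine sum_eq_zero fun x hx => ?_
    unfold cp
    rw [if_pos]
    left
    rw [order_gen hco E (adm_unit hx).1 (adm_unit hx).2]
    have h1 : n i4 ∣ ∏ i ∈ T, n i := Finset.dvd_prod_of_mem n hT
    rw [h4] at h1
    exact dvd_trans (by norm_num) h1
  by_cases hT0 : T = ∅
  · rw [if_pos (Or.inr hT0)]
    refine sum_eq_zero fun x hx => ?_
    have hx0 : x = 0 := by
      funext i
      exact (adm_unit hx).2 i (by rw [hT0]; exact notMem_empty i)
    unfold cp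
    rw [if_pos]
    right
    rw [hx0, map_zero]
  rw [if_neg (by rw [not_or]; exact ⟨hT, hT0⟩)]
  have hne : ∀ i ∈ T, i ≠ i4 := fun i hi h => hT (h ▸ hi)
  have hinj : ∀ i ∈ T, ∀ j ∈ T, n i = n j → i = j := by
    intro i hi j hj hij
    by_contra hcon
    have h : (n i).Coprime (n j) := hco hcon
    rw [hij, Nat.coprime_self] at h
    exact (hpr j (hne j hj)).1.one_lt.ne' h
  have hord : ∀ x ∈ Pool.Agent.N992.QQ n T, addOrderOf (E x) = ∏ q ∈ T.image n, q := by
    intro x hx
    rw [order_gen hco E (adm_unit hx).1 (adm_unit hx).2]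
    exact (Finset.prod_image (f := fun q => q) fun i hi j hj h => hinj i hi j hj h).symm
  have hval : ∀ x ∈ Pool.Agent.N992.QQ n T, cp (E x) = Pi.single (T.image n) 1 := by
    intro x hx
    have h1 : (addOrderOf (E x)).primeFactors = T.image n := by
      rw [hord x hx]
      refine Nat.primeFactors_prod fun q hq => ?_
      obtain ⟨i, hi, rfl⟩ := mem_image.mp hq
      exact (hpr i (hne i hi)).1
    unfold cp
    rw [if_neg, h1]
    rw [not_or]
    constructor
    · rw [hord x hx, Nat.prime_two.prime.dvd_finsetProd_iff]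
      rintro ⟨q, hq, h2⟩
      obtain ⟨i, hi, rfl⟩ := mem_image.mp hq
      have := (hpr i (hne i hi)).2
      omega
    · intro h0
      rw [h0, addOrderOf_zero] at h1
      rw [Nat.primeFactors_one] at h1
      exact hT0 (image_eq_empty.mp h1.symm)
  rw [sum_congr rfl hval, sum_const]
  have hodd : Odd (Pool.Agent.N992.QQ n T).card := by
    unfold Pool.Agent.N992.QQ
    rw [Fintype.card_piFinset]
    refine Finset.prod_induction _ Odd (fun a b => Odd.mul) odd_one fun i _ => ?_
    by_cases hi : i ∈ T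
    · rw [if_pos hi]
      have : Fact (n i).Prime := ⟨(hpr i (hne i hi)).1⟩
      exact card_Hf_odd (hpr i (hne i hi)).2
    · rw [if_neg hi, card_singleton]
      exact odd_one
  obtain ⟨k, hk⟩ := hodd
  rw [hk, add_smul, one_smul, mul_smul]
  have h5 : ∀ x : Finset ℕ → ZMod 2, 2 • x = 0 := by
    intro x
    funext V
    show 2 • x V = 0
    rw [two_nsmul]
    exact CharTwo.add_self_eq_zero (x V)
  rw [h5, zero_add]

theorem ex4_abs (hcl : S_CL4) (hod : S_OD4) (i4 : ι) (h4 : n i4 = 4)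
    (hpr : ∀ i, i ≠ i4 → (n i).Prime ∧ n i % 4 = 3)
    (hco : Pairwise fun i j => (n i).Coprime (n j)) (hN : ∏ i, n i = N)
    (E : (∀ i, ZMod (n i)) ≃+* ZMod N) (hodd : Odd ((univ : Finset ι).erase i4).card)
    (B : Finset ι) (hB : ∀ i, i ∈ B ↔ i ≠ i4 ∧ ¬ IsSquare (2 : ZMod (n i))) (hBo : Odd B.card)
    (S : Finset ℕ) (hS : ∀ q, q ∈ S ↔ ∃ i, i ≠ i4 ∧ n i = q) :
    ∃ h : Multiset (ZMod N), ModularCharacter N h ∧ (h.map cp).sum S = 1 ∧
      ∀ V : Finset ℕ, (h.map cp).sum V ≠ 0 → V ⊆ S := by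
  classical
  have hn : Adm n := by
    intro i
    by_cases hi : i = i4
    · right; rw [hi]; exact h4
    · left; exact hpr i hi
  have hc : OddDist (cp (m := N)) := hod N
  have hSi : ((univ : Finset ι).erase i4).image n = S := by
    ext q
    rw [mem_image, hS]
    constructor
    · rintro ⟨i, hi, rfl⟩; exact ⟨i, (mem_erase.mp hi).1, rfl⟩
    · rintro ⟨i, hi, rfl⟩; exact ⟨i, mem_erase.mpr ⟨hi, mem_univ _⟩, rfl⟩
  have hins : insert i4 ((univ : Finset ι).erase i4) = univ := insert_erase (mem_univ i4)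
  have hSne : (univ : Finset ι).erase i4 ≠ ∅ := by
    intro h
    rw [h, card_empty] at hodd
    exact absurd hodd (by decide)
  have h1 := hcl ι n hn hco (fun x => saw (E x)) (piDist_of hn hco hN E saw_oddDist) i4
    (univ.erase i4) h4 (notMem_erase _ _) hodd B
    (by intro i hi; exact mem_erase.mpr ⟨((hB i).mp hi).1, mem_univ _⟩)
    (by
      intro i hi
      rw [hB]
      exact ⟨fun h => h.2, fun h => ⟨(mem_erase.mp hi).1, h⟩⟩) hBo
  rw [hins] at h1
  set F : Finset ι → ((∀ i, ZMod (n i))ˣ → ℤ) := fun T t =>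
    ∑ x ∈ Pool.Agent.N992.QQ n T, saw (E ((t : ∀ i, ZMod (n i)) * x)) with hF
  set C : Finset ι → (Finset ℕ → ZMod 2) := fun T =>
    ∑ x ∈ Pool.Agent.N992.QQ n T, cp (E x) with hC
  have hCval : ∀ T, C T = if i4 ∈ T ∨ T = ∅ then 0 else Pi.single (T.image n) 1 :=
    fun T => cp_QQ i4 h4 hpr hco E T
  set X : Set ((Finset ℕ → ZMod 2) × ((∀ i, ZMod (n i))ˣ → ℤ)) :=
    {z | ∃ T : Finset ι, (T ⊂ univ ∧ T ≠ univ.erase i4) ∧ z = (C T, F T)} with hX
  have h2 : {f : (∀ i, ZMod (n i))ˣ → ℤ | ∃ T : Finset ι, T ⊂ univ ∧ T ≠ univ.erase i4 ∧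
        f = fun t : (∀ i, ZMod (n i))ˣ => ∑ x ∈ Pool.Agent.N992.QQ n T,
          saw (E ((t : ∀ i, ZMod (n i)) * x))} =
      (AddMonoidHom.snd (Finset ℕ → ZMod 2) ((∀ i, ZMod (n i))ˣ → ℤ)) '' X := by
    ext f
    constructor
    · rintro ⟨T, h, h', rfl⟩; exact ⟨_, ⟨T, ⟨h, h'⟩, rfl⟩, rfl⟩
    · rintro ⟨_, ⟨T, ⟨h, h'⟩, rfl⟩, rfl⟩; exact ⟨T, h, h', rfl⟩
  rw [h2, ← AddMonoidHom.map_closure] at h1
  obtain ⟨z, hz, hz2⟩ := h1
  have hzK : z ∈ KK E hc := by
    refine (AddSubgroup.closure_le (K := KK E hc)).mpr ?_ hz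
    rintro _ ⟨T, _, rfl⟩
    exact QQ_mem_KK hn hco E hc _ T rfl
  have hinj : Function.Injective n := by
    intro i j hij
    by_contra hcon
    have h : (n i).Coprime (n j) := hco hcon
    rw [hij, Nat.coprime_self] at h
    by_cases hj : j = i4
    · rw [hj, h4] at h; omega
    · exact (hpr j hj).1.one_lt.ne' h
  have hzp : ∀ V, z.1 V ≠ 0 → V ⊂ S := by
    let P : AddSubgroup ((Finset ℕ → ZMod 2) × ((∀ i, ZMod (n i))ˣ → ℤ)) :=
      { carrier := {w | ∀ V, ¬ V ⊂ S → w.1 V = 0}
        add_mem' := by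
          intro a b ha hb V hV
          show a.1 V + b.1 V = 0
          rw [ha V hV, hb V hV, add_zero]
        zero_mem' := fun V _ => rfl
        neg_mem' := by
          intro a ha V hV
          show - a.1 V = 0
          rw [ha V hV, neg_zero] }
    have hP : z ∈ P := by
      refine (AddSubgroup.closure_le (K := P)).mpr ?_ hz
      rintro _ ⟨T, ⟨_, hT'⟩, rfl⟩ V hV
      show C T V = 0
      rw [hCval]
      by_cases hT0 : i4 ∈ T ∨ T = ∅
      · rw [if_pos hT0]; rfl
      · rw [if_neg hT0, Pi.single_eq_of_ne]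
        rintro rfl
        rw [not_or] at hT0
        apply hV
        rw [← hSi]
        refine (Finset.image_ssubset_image hinj).mpr ?_
        refine lt_of_le_of_ne (fun i hi => ?_) hT'
        exact mem_erase.mpr ⟨fun h => hT0.1 (h ▸ hi), mem_univ _⟩
    intro V hV
    by_contra hcon
    exact hV (hP V hcon)
  obtain ⟨s, hs, hs1, hs2⟩ := (KK E hc).sub_mem ((KK E hc).sub_mem
    (QQ_mem_KK hn hco E hc _ (univ : Finset ι) rfl)
    (QQ_mem_KK hn hco E hc _ ((univ : Finset ι).erase i4) rfl)) hzK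
  have hs1' : (s.map cp).sum = C univ - C (univ.erase i4) - z.1 := hs1
  have hCu : C univ = 0 := by rw [hCval, if_pos (Or.inl (mem_univ i4))]
  have hCe : C (univ.erase i4) = Pi.single S 1 := by
    rw [hCval, if_neg, hSi]
    rw [not_or]
    exact ⟨notMem_erase _ _, hSne⟩
  obtain ⟨s', hs', hs'1⟩ := modular_of_balanced (Q := Finset ℕ → ZMod 2)
    (fun x => by funext V; exact ZMod.neg_eq_self_mod_two (x V)) hc hs (by
      intro t
      obtain ⟨u, hu⟩ : ∃ u : (∀ i, ZMod (n i))ˣ, E (u : ∀ i, ZMod (n i)) = (t : ZMod N) := by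
        refine ⟨Units.mapEquiv E.symm.toMulEquiv t, ?_⟩
        simp
      have h3 := hs2 u
      rw [hu] at h3
      rw [h3]
      have h5 : z.2 u = F univ u - F (univ.erase i4) u := congrFun hz2 u
      show F univ u - F (univ.erase i4) u - z.2 u = 0
      rw [h5, sub_self])
  have hval : ∀ V, (s'.map cp).sum V = - (Pi.single S 1 : Finset ℕ → ZMod 2) V - z.1 V := by
    intro V
    rw [hs'1, hs1', hCu, hCe, zero_sub]
    rfl
  have hzS : z.1 S = 0 := by
    by_contra hcon
    exact (hzp S hcon).2 (Subset.refl _)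
  have hone : (s'.map cp).sum S = 1 := by
    rw [hval, Pi.single_eq_same, hzS, sub_zero]
    decide
  refine ⟨s', ?_, hone, ?_⟩
  · rcases hs' with rfl | h
    · simp at hone
    · exact h
  · intro V hV
    by_cases h : V = S
    · rw [h]
    · rw [hval, Pi.single_eq_of_ne h, neg_zero, zero_sub, neg_ne_zero] at hV
      exact (hzp V hV).1

end level

/-- the values of the distribution are the parities -/
lemma cp_count {m : ℕ} {s : Multiset (ZMod m)} {V : Finset ℕ} (h2 : 2 ∉ V) (hV : V.Nonempty) :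
    (s.map cp).sum V = ((s.countP (Supp V) : ℕ) : ZMod 2) := by
  classical
  have h1 : ∀ a : ZMod m, (cp a : Finset ℕ → ZMod 2) V = if Supp V a then 1 else 0 := by
    intro a
    unfold cp
    by_cases h : Supp V a
    · have h3 : ¬ (2 ∣ addOrderOf a ∨ a = 0) := by
        rw [not_or]
        have h4 : (addOrderOf a).primeFactors = V := h
        constructor
        · intro h5
          apply h2
          rw [← h4, Nat.mem_primeFactors]
          refine ⟨Nat.prime_two, h5, ?_⟩
          intro h6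
          rw [h6, Nat.primeFactors_zero] at h4
          exact hV.ne_empty h4.symm
        · intro h5
          rw [h5, addOrderOf_zero, Nat.primeFactors_one] at h4
          exact hV.ne_empty h4.symm
      rw [if_neg h3, if_pos h]
      have h4 : (addOrderOf a).primeFactors = V := h
      rw [h4, Pi.single_eq_same]
    · rw [if_neg h]
      by_cases h3 : 2 ∣ addOrderOf a ∨ a = 0
      · rw [if_pos h3]; rfl
      · rw [if_neg h3, Pi.single_eq_of_ne]
        intro h4
        exact h h4.symm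
  induction s using Multiset.induction_on with
  | empty => simp
  | cons a s ih =>
    rw [Multiset.map_cons, Multiset.sum_cons, Pi.add_apply, ih, h1, Multiset.countP_cons]
    by_cases h : Supp V a
    · rw [if_pos h, if_pos h]; push_cast; ring
    · rw [if_neg h, if_neg h]; push_cast; ring

theorem t_EX4 : S_CL4 → S_OD4 → S_EX4 := by
  intro hcl hod p m _ hpm h4m S hS h2S hS3 hSo hJ
  classical
  have hprime : ∀ q ∈ S, q.Prime := fun q hq => Nat.prime_of_mem_primeFactors (hS hq)
  have h4S : 4 ∉ S := fun h => by have := hS3 4 h; omega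
  let n : {q // q ∈ insert 4 S} → ℕ := fun q => q
  let i4 : {q // q ∈ insert 4 S} := ⟨4, mem_insert_self _ _⟩
  have hne4 : ∀ i : {q // q ∈ insert 4 S}, i ≠ i4 → (i : ℕ) ∈ S := by
    intro i hi
    rcases mem_insert.mp i.2 with h | h
    · exact absurd (Subtype.ext h) hi
    · exact h
  have hpr : ∀ i, i ≠ i4 → (n i).Prime ∧ n i % 4 = 3 := fun i hi =>
    ⟨hprime _ (hne4 i hi), hS3 _ (hne4 i hi)⟩
  have hz : ∀ i, NeZero (n i) := fun i => ⟨by
    by_cases hi : i = i4
    · rw [hi]; show (4 : ℕ) ≠ 0; norm_num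
    · exact (hpr i hi).1.ne_zero⟩
  have hc4 : ∀ i, i ≠ i4 → (4 : ℕ).Coprime (n i) := by
    intro i hi
    have h1 : (2 : ℕ).Coprime (n i) := by
      rw [Nat.coprime_two_left, Nat.odd_iff]
      have := (hpr i hi).2
      omega
    have h2 : (2 ^ 2 : ℕ).Coprime (n i) := h1.pow_left 2
    exact h2
  have hco : Pairwise fun i j => (n i).Coprime (n j) := by
    intro i j hij
    by_cases hi : i = i4
    · subst hi
      exact hc4 j hij.symm
    · by_cases hj : j = i4
      · subst hj
        exact (hc4 i hij).symm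
      · exact (Nat.coprime_primes (hpr i hi).1 (hpr j hj).1).mpr fun h => hij (Subtype.ext h)
  have hN : ∏ i, n i = 4 * ∏ q ∈ S, q := by
    have h1 : ∏ i, n i = ∏ q ∈ insert 4 S, q := Finset.prod_coe_sort (insert 4 S) (fun q => q)
    rw [h1, prod_insert h4S]
  have hdvd : 4 * ∏ q ∈ S, q ∣ m := by
    refine Nat.Coprime.mul_dvd_of_dvd_of_dvd ?_ h4m ?_
    · refine Nat.Coprime.prod_right fun q hq => ?_
      exact hc4 ⟨q, mem_insert_of_mem hq⟩ (fun h => h4S (by
        have : q = 4 := congrArg Subtype.val h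
        exact this ▸ hq))
    · exact (Finset.prod_dvd_prod_of_subset _ _ _ hS).trans (Nat.prod_primeFactors_dvd m)
  obtain ⟨k, hk⟩ := hdvd
  have hkN : k * (4 * ∏ q ∈ S, q) = m := by rw [mul_comm]; exact hk.symm
  have hN0 : (4 * ∏ q ∈ S, q) ≠ 0 := by
    intro h
    rw [h, zero_mul] at hk
    exact NeZero.ne m hk
  have hzN : NeZero (4 * ∏ q ∈ S, q) := ⟨hN0⟩
  have hE : Nonempty ((∀ i, ZMod (n i)) ≃+* ZMod (4 * ∏ q ∈ S, q)) := by
    rw [← hN]
    exact ⟨(ZMod.prodEquivPi n hco).symm⟩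
  obtain ⟨E⟩ := hE
  have hSmem : ∀ q, q ∈ S ↔ ∃ i, i ≠ i4 ∧ n i = q := by
    intro q
    constructor
    · intro hq
      refine ⟨⟨q, mem_insert_of_mem hq⟩, ?_, rfl⟩
      intro h
      have h5 : q = 4 := congrArg Subtype.val h
      exact h4S (h5 ▸ hq)
    · rintro ⟨i, hi, rfl⟩
      exact hne4 i hi
  have hnn : Function.Injective n := fun i j h => Subtype.ext h
  have himg : ((univ : Finset {q // q ∈ insert 4 S}).erase i4).image n = S := by
    ext q
    rw [mem_image, hSmem]
    constructor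
    · rintro ⟨i, hi, rfl⟩; exact ⟨i, (mem_erase.mp hi).1, rfl⟩
    · rintro ⟨i, hi, rfl⟩; exact ⟨i, mem_erase.mpr ⟨hi, mem_univ _⟩, rfl⟩
  have hcard : ((univ : Finset {q // q ∈ insert 4 S}).erase i4).card = S.card :=
    (card_image_of_injective _ hnn).symm.trans (congrArg Finset.card himg)
  set B : Finset {q // q ∈ insert 4 S} := univ.filter
    (fun i => i ≠ i4 ∧ ¬ IsSquare (2 : ZMod (n i))) with hBdef
  have hBo : Odd B.card := by
    have h1 : jacobiSym 2 (∏ q ∈ S, q) = (-1) ^ B.card := by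
      have h2' : ∏ q ∈ S, q =
          ∏ q ∈ ((univ : Finset {q // q ∈ insert 4 S}).erase i4).image n, q := by
        rw [himg]
      have h2 : ∏ q ∈ S, q = ∏ i ∈ (univ : Finset {q // q ∈ insert 4 S}).erase i4, n i :=
        h2'.trans (Finset.prod_image (f := fun q => q) fun i _ j _ h => hnn h)
      have h3 := jac_prod n 2 ((univ : Finset {q // q ∈ insert 4 S}).erase i4)
        (fun i => (hz i).ne)
      have h4' : jacobiSym 2 (∏ q ∈ S, q) = ∏ i ∈ (univ : Finset {q // q ∈ insert 4 S}).erase i4,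
          jacobiSym ((2 : ℕ) : ℤ) (n i) := by
        rw [h2, ← h3]; rfl
      have hc2 : ∀ i ∈ (univ : Finset {q // q ∈ insert 4 S}).erase i4, (2 : ℕ).Coprime (n i) := by
        intro i hi
        rw [Nat.coprime_two_left, Nat.odd_iff]
        have := (hpr i (mem_erase.mp hi).1).2
        omega
      rw [h4', ← prod_filter_mul_prod_filter_not _ (fun i => ¬ IsSquare (2 : ZMod (n i)))]
      have h5 : ∏ i ∈ ((univ : Finset {q // q ∈ insert 4 S}).erase i4).filter
          (fun i => ¬ ¬ IsSquare (2 : ZMod (n i))), jacobiSym ((2 : ℕ) : ℤ) (n i) = 1 := by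
        refine prod_eq_one fun i hi => ?_
        rw [mem_filter, not_not] at hi
        refine (jac_one_iff (hpr i (mem_erase.mp hi.1).1).1 (hc2 i hi.1)).mpr ?_
        exact_mod_cast hi.2
      have h6 : ((univ : Finset {q // q ∈ insert 4 S}).erase i4).filter
          (fun i => ¬ IsSquare (2 : ZMod (n i))) = B := by
        ext i
        rw [hBdef, mem_filter, mem_filter, mem_erase]
        constructor
        · rintro ⟨⟨h7, _⟩, h8⟩; exact ⟨mem_univ _, h7, h8⟩
        · rintro ⟨_, h7, h8⟩; exact ⟨⟨h7, mem_univ _⟩, h8⟩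
      rw [h5, mul_one, h6, ← prod_const]
      refine prod_congr rfl fun i hi => ?_
      rw [hBdef, mem_filter] at hi
      have hi' : i ∈ (univ : Finset {q // q ∈ insert 4 S}).erase i4 :=
        mem_erase.mpr ⟨hi.2.1, mem_univ _⟩
      refine jac_neg_of (hpr i hi.2.1).1 (hc2 i hi') ?_
      exact_mod_cast hi.2.2
    rw [hJ] at h1
    by_contra hcon
    rw [Nat.not_odd_iff_even] at hcon
    rw [hcon.neg_one_pow] at h1
    norm_num at h1
  obtain ⟨h, hM, hS1, hV⟩ := ex4_abs hcl hod i4 rfl hpr hco hN E (by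
      rw [Finset.card_erase_of_mem (mem_univ _)] at hcard ⊢
      rw [hcard]
      exact hSo) B
    (by intro i; rw [hBdef, mem_filter]; exact ⟨fun h => h.2, fun h => ⟨mem_univ _, h⟩⟩) hBo S hSmem
  have hSne : S.Nonempty := by
    rw [nonempty_iff_ne_empty]
    intro h0
    rw [h0, card_empty] at hSo
    exact absurd hSo (by decide)
  have hL := hM.lift hkN
  refine ⟨h.map (iota k : ZMod (4 * ∏ q ∈ S, q) → ZMod m), ⟨isTate_of_isHodge hpm hL.1, hL.2⟩, ?_, ?_⟩
  · rw [Pool.Agent.H916Y.countP_iota hkN]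
    intro hev
    rw [cp_count h2S hSne] at hS1
    rw [(ZMod.natCast_eq_zero_iff _ _).mpr (even_iff_two_dvd.mp hev)] at hS1
    exact absurd hS1 (by decide)
  · intro V h2V hodd
    rw [Pool.Agent.H916Y.countP_iota hkN] at hodd
    by_cases hVne : V.Nonempty
    · refine hV V ?_
      rw [cp_count h2V hVne]
      intro h0
      apply hodd
      rw [even_iff_two_dvd]
      exact (ZMod.natCast_eq_zero_iff _ _).mp h0
    · rw [not_nonempty_iff_eq_empty] at hVne
      rw [hVne]
      exact empty_subset _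

end Run7.h919.TF
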