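import Pool.Agent.TH540.MainH
import Pool.Agent.N992.Main

/-!
# Project TF: the Tate conjecture for all Fermat varieties whose degree has prime factors `2` (at most once) and
`≡ 3 mod 4` only, in all dimensions and in every characteristic

Theorem (`S_FIN`). Let all odd prime factors of `m` be `≡ 3 mod 4`, and let `4 ∤ m` (or all odd prime factors `≡ 7 mod 8`).
Let `p` be any prime not dividing `m`. Every Tate character of degree `m` in characteristic `p` becomes, in a multiple
degree prime to `p`, a member of the closure of the Tate characters with four entries (surfaces), the standard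
characters, and the MODULAR Tate characters (unions of spectra of `T` in congruence representations of `PSL(2, ℤ)` and of
residues killed by 12). (The analogue in characteristic zero is `Pool.Agent.N992.main` of the starting tree.)

Proof in a nutshell. `Supp S a` : the order of `a` has exactly the prime divisors in `S`. By `Pool.Agent.TH540.parity_fix`
(starting tree) it is enough that the number of entries with support `S` is even for all sets `S` of odd primes such that `-1` is no
power of `p` modulo `∏ S`, i.e. (all primes `≡ 3 mod 4`) such that some `q ∈ S` has `(p / q) = 1`.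
* `|S|` odd and `(p / ∏ S) = 1`: the quadratic character of conductor `∏ S` is odd and trivial on `p`; the vanishing of
  the corresponding component of the relation, modulo two, is `∑ c_V = 0` over `V ⊇ S` with `(j / ∏ S) = -1` for all `j ∈ V \ S` (`PARO`, `PAR`).
* otherwise (`|S|` even, or `(p / ∏ S) = -1`) there is a modular Tate character `h` with `c_S(h)` odd and all other `c_V(h)`
  with `V ⊄ S` even (`EXH`): the product `Q_S` of the half systems (nonzero squares modulo `q`, an odd number!) plus an integral combination of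
  the `Q_T`, `T ⊂ S` (`AVR`).
* recursion from large sets to small sets (`REC`).

Every `S_X` below is a closed proposition; a proof may assume the pieces named in its docstring (in that order).
-/

set_option autoImplicit false

namespace Run7.h919.TF

open Finset Pool.Agent.H916R2 Pool.Agent.H916T Pool.Agent.H916U Pool.Agent.H916Z Pool.Agent.H916Q Pool.Agent.N992

/-- the Tate characters in characteristic `p` that are unions of modular spectra and of residues killed by 12 -/
def ModularTate (p m : ℕ) [NeZero m] (s : Multiset (ZMod m)) : Prop := IsTate p m s ∧ Modu m s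

/-- all odd prime factors are `≡ 3 mod 4`, and `4 ∤ m` or they are all `≡ 7 mod 8` -/
def Deg (m : ℕ) : Prop :=
  (∀ q : ℕ, q.Prime → q ∣ m → q = 2 ∨ q % 4 = 3) ∧
    (¬ 4 ∣ m ∨ ∀ q : ℕ, q.Prime → q ∣ m → q = 2 ∨ q % 8 = 7)

/-- **PARO** (150 lines). Generalises `H916Y.Gen.dist`, `H916Y.even_count`, `H916Y.even_leg` (files `H916Y/Even.lean`, `H916Y/Leg.lean`;
there `R` consists of the prime 3; copy them). Put `Q0 = FS m S`, `R = {j ∉ Q0 : (j / ∏ S) = -1}` (all `j ∈ R` are `≡ 3 mod 4`), `d j = (j - 1) / 2` (odd for `j ∈ R`), and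
`φ U x = om Q0 x * ∏ j ∈ R \ U, d j` if `Q0 ⊆ U ⊆ Q0 ∪ R`, else `0`. It is a `Dist (sg m) (tt m) φ`: for `j ∈ U ∩ R`: `NN j (φ U) x = (j - 1) φ U x`
(`om Q0` does not depend on the coordinate `j`) and `DD (tt m j) (φ (U.erase j)) x = φ (U.erase j) x - φ (U.erase j) (t_j x) = 2 φ (U.erase j) x`
`= 2 d_j om ∏ ..` (as `om (tt m j) = (j / ∏ S) = -1`); for `j ∈ Q0`: `om_nn`; for `j ∉ Q0 ∪ R`: `om (tt m j) = 1`. All its values on these `U` are odd. As in `even_count`
(`H916D.torsion_sum`, the power of two of `gcd (a, m)`; note `2 ∉ Q0 ∪ R`) the number of entries `a` with `Q0 ⊆ TT m (addOrderOf a) ⊆ Q0 ∪ R` is even. It is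
the sum of the `s.countP (Supp V)` over `S ⊆ V ⊆ S ∪ R`, and all except `V = S` are even by hypothesis. -/
def S_PARO : Prop := ∀ (p m : ℕ) [NeZero m], p.Coprime m → ∀ s : Multiset (ZMod m), Rel0 p s →
  ∀ S : Finset ℕ, S ⊆ m.primeFactors → 2 ∉ S → S.Nonempty →
  jacobiSym (-1) (∏ q ∈ S, q) = -1 → jacobiSym p (∏ q ∈ S, q) = 1 →
  (∀ j ∈ m.primeFactors, j ∉ S →
    jacobiSym j (∏ q ∈ S, q) = 1 ∨ (j % 4 = 3 ∧ jacobiSym j (∏ q ∈ S, q) = -1)) →
  (∀ V : Finset ℕ, V ⊆ m.primeFactors → S ⊂ V → 2 ∉ V → Even (s.countP (Supp V))) →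
  Even (s.countP (Supp S))

/-- **PAR** (60 lines), from `PARO`. `jacobiSym (-1) (∏ S) = -1` because `|S|` is odd and all `q ≡ 3 mod 4` (`∏ S ≡ 3 mod 4`). If `4 ∤ m` go to the odd
level by `H916Y.exists_odd_level`, `H916Y.oddize_rel` (it preserves the parities of all supports without `2`) as in `H916Y.even_odd_level`
(`Fams3.lean`), and apply `PARO` there (all `j` are odd, so `≡ 3 mod 4`, and the Jacobi symbol of a prime `j ∤ ∏ S` is `± 1`; the sets `V ⊆ n.primeFactors` are
`⊆ m.primeFactors`). If `4 ∣ m` apply `PARO` at level `m`: for `j = 2` all `q ≡ 7 mod 8` give `(2 / ∏ S) = 1` (`jacobiSym.at_two`). -/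
def S_PAR : Prop := ∀ (p m : ℕ) [NeZero m], p.Coprime m → Deg m →
  ∀ s : Multiset (ZMod m), Rel0 p s →
  ∀ S : Finset ℕ, S ⊆ m.primeFactors → 2 ∉ S → Odd S.card → jacobiSym p (∏ q ∈ S, q) = 1 →
  (∀ V : Finset ℕ, V ⊆ m.primeFactors → S ⊂ V → 2 ∉ V → Even (s.countP (Supp V))) →
  Even (s.countP (Supp S))

/-- **AVR** (60 lines). The proof of `Pool.Agent.N992.rel_closure` (`N992/Rel.lean`, last theorem; copy it) works when `WW χ s S S t = 0` for
all `t`. For even `|S|` this is `WW_even`. Otherwise `WW_twist` with the unit `u` gives `WW χ s S S (u t) = (∏ i ∈ S, χ i (u i)) WW χ s S S t = - WW χ s S S t`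
(`χ i (u i) = -1` iff `u i` is no square: `IsChi.mem` and `mem_Hf`), and `s (u x) = s x` gives `WW χ s S S (u t) = WW χ s S S t`. -/
def S_AVR : Prop := ∀ (ι : Type) [Fintype ι] [DecidableEq ι] (n : ι → ℕ) [∀ i, NeZero (n i)],
  Adm n → Pairwise (fun i j => (n i).Coprime (n j)) →
  ∀ s : (∀ i, ZMod (n i)) → ℤ, PiDist n s →
  ∀ u : (∀ i, ZMod (n i))ˣ, (∀ x, s ((u : ∀ i, ZMod (n i)) * x) = s x) →
  ∀ (S : Finset ι) (B : Finset ι), B ⊆ S →
  (∀ i ∈ S, i ∈ B ↔ ¬ IsSquare ((u : ∀ i, ZMod (n i)) i)) → (Even S.card ∨ Odd B.card) →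
  (fun t : (∀ i, ZMod (n i))ˣ => ∑ x ∈ QQ n S, s ((t : ∀ i, ZMod (n i)) * x)) ∈
    AddSubgroup.closure {f : (∀ i, ZMod (n i))ˣ → ℤ | ∃ T : Finset ι, T ⊂ S ∧
      f = fun t : (∀ i, ZMod (n i))ˣ => ∑ x ∈ QQ n T, s ((t : ∀ i, ZMod (n i)) * x)}

/-- **EXN** (250 lines, helper919), from `AVR`: existence at the level `∏ S`. -/
def S_EXN : Prop := ∀ (p : ℕ) (S : Finset ℕ), (∀ q ∈ S, q.Prime ∧ q % 4 = 3) →
  ∀ [NeZero (∏ q ∈ S, q)], p.Coprime (∏ q ∈ S, q) →
  (∃ q ∈ S, jacobiSym p q = 1) → (Even S.card ∨ jacobiSym p (∏ q ∈ S, q) = -1) →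
  ∃ h : Multiset (ZMod (∏ q ∈ S, q)), ModularTate p (∏ q ∈ S, q) h ∧
    ¬ Even (h.countP (Supp S)) ∧ ∀ V : Finset ℕ, ¬ Even (h.countP (Supp V)) → V ⊆ S

/-- **EXH** (50 lines), from `EXN`: the level `m`. With `∏ S ∣ m`, `k * ∏ S = m`, take `h.map (iota k)`: `H916Y.isTate_iota`, `H916Y.countP_iota`, and for `Modu`
copy the proof of `N992.ModularCharacter.lift` (`N992/Main.lean`, from `N992.ModularSpectrum.lift`). -/
def S_EXH : Prop := ∀ (p m : ℕ) [NeZero m], p.Coprime m →
  ∀ S : Finset ℕ, S ⊆ m.primeFactors → (∀ q ∈ S, q % 4 = 3) →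
  (∃ q ∈ S, jacobiSym p q = 1) → (Even S.card ∨ jacobiSym p (∏ q ∈ S, q) = -1) →
  ∃ h : Multiset (ZMod m), ModularTate p m h ∧ ¬ Even (h.countP (Supp S)) ∧
    ∀ V : Finset ℕ, ¬ Even (h.countP (Supp V)) → V ⊆ S

/-- **REC** (100 lines), from `PAR`, `EXH`. Let `𝓟` be the set of all `S ⊆ m.primeFactors`, `2 ∉ S`, with some `q ∈ S`, `(p / q) = 1`. Show for every
upward closed `𝓕 ⊆ 𝓟` (`S ∈ 𝓕`, `S ⊆ V ∈ 𝓟` imply `V ∈ 𝓕`) by induction on the number of elements: there is `h` (`= 0` or `ModularTate`) with `(s + h).countP (Supp S)` even for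
all `S ∈ 𝓕`. Step: take `S ∈ 𝓕` with the least number of elements, `𝓕' = 𝓕.erase S` is upward closed, let `h'` be good for `𝓕'`. If `(s + h').countP (Supp S)` is
even, done. If `|S|` is odd and `(p / ∏ S) = 1` then it is even, by `PAR` for `s + h'` (`Rel0`: `IsTate.W_sum`, `Rel0.add`; every `V ⊃ S` without `2` is in `𝓕'`).
Otherwise (`(p / ∏ S) = ± 1` as `p ∤ ∏ S`) add the `h` of `EXH`: for `V ∈ 𝓕'` it has an even number of entries with support `V`, since `V ⊆ S` and `V ≠ S` contradict the choice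
of `S`. A sum of two `ModularTate` is `ModularTate` (`H916Y.isTate_add`, `Modu.add`). -/
def S_REC : Prop := ∀ (p m : ℕ) [NeZero m], p.Coprime m → Deg m →
  ∀ s : Multiset (ZMod m), IsTate p m s →
  ∃ h : Multiset (ZMod m), (h = 0 ∨ ModularTate p m h) ∧
    ∀ S : Finset ℕ, S ⊆ m.primeFactors → 2 ∉ S → (∃ q ∈ S, jacobiSym p q = 1) →
      Even ((s + h).countP (Supp S))

/-- **FIN** (120 lines), from `REC`. Let `h` be as in `REC`. Apply `TH540.parity_fix` with `k = 1` to `s + h` (not zero) and `E S := S ⊆ m.primeFactors ∧ 2 ∉ S ∧ ∃ q ∈ S, jacobiSym p q = 1`.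
If `a ≠ 0` has even order: `TH540.fix_null (TH540.null_even ..)` (see `TH540.main_fix2`, `MainH.lean`). If the order `n` of `a` is odd and `(p / q) ≠ 1` for all its prime factors `q`, then
`p ^ ((q - 1) / 2) = -1` modulo `q`, `(q - 1) / 2` is odd, so `p ^ (∏ (q - 1) / 2 * n) = -1` modulo `n`
(first modulo the squarefree part, then the odd power `n`; or see `H916Y.Dead`, `H916Y.dead_of_neg`, `H916Y.dead_elem`): `Null`, `TH540.fix_null (TH540.fix_neg_one ..)`. So `N (s + h)` is `H916T.Generated` by `ZBase p (N m)`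
(surfaces and standard characters). `- N h` is `ModularTate` at the level `N m` (or `h = 0`; negation: `Modu.neg`, lifting: as in `EXH`). So `N s + (N h + (- N h))` is
generated, and the pairs `{a, -a}`, `a ∈ N h`, can be cancelled one after the other (`Generated.cancel`). -/
def S_FIN : Prop := ∀ (p m : ℕ), p.Prime → 0 < m → p.Coprime m → Deg m →
  ∀ s : Multiset (ZMod m), IsTate p m s → s ≠ 0 →
  ∃ N : ℕ, 0 < N ∧ p.Coprime N ∧ ∃ _ : NeZero (N * m),
    Pool.Agent.H916T.Generated (N * m)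
      (fun t => SurfaceTate p (N * m) t ∨ ModularTate p (N * m) t ∨
        ∃ q : ℕ, q.Prime ∧ q ∣ N * m ∧ Standard q (N * m) t)
      (s.map fun a => ((N * a.val : ℕ) : ZMod (N * m)))

end Run7.h919.TF
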