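import Pool.Agent.Run7.h919.TF.Iface

/-!
# Project TF, part 2: all powers of two

Theorem (`S_FIN3`): the same for EVERY `m` whose odd prime factors are `≡ 3 mod 4` (any power of two). New: for `4 ∣ m` and `|S|` odd with `(2 / ∏ S) = -1`
the parity at `S` can be corrected by a modular character of characteristic zero, of level `4 ∏ S`: `Q_(S ∪ {4}) - Q_S - (integral combination of the
Q_T, T ⊂ S ∪ {4}, T ≠ S)` (`CL4`, `OD4`, `EX4`); all entries of even order are dead. For `(2 / ∏ S) = 1` the lemma `PARO` applies at the level `m`.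
-/

set_option autoImplicit false

namespace Run7.h919.TF

open Finset Pool.Agent.H916R2 Pool.Agent.H916T Pool.Agent.H916U Pool.Agent.H916Z Pool.Agent.H916Q Pool.Agent.N992

/-- all odd prime factors are `≡ 3 mod 4` -/
def Deg3 (m : ℕ) : Prop := ∀ q : ℕ, q.Prime → q ∣ m → q = 2 ∨ q % 4 = 3

/-- **PAR3** (20 lines), from `PARO`, as `PAR` (`Run7.h957.TF.PARO`): if `4 ∤ m` apply `PAR` (this is `Deg m`), otherwise `PARO` at the level `m` with the
hypothesis for `j = 2`. -/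
def S_PAR3 : Prop := ∀ (p m : ℕ) [NeZero m], p.Coprime m → Deg3 m →
  ∀ s : Multiset (ZMod m), Rel0 p s →
  ∀ S : Finset ℕ, S ⊆ m.primeFactors → 2 ∉ S → Odd S.card → jacobiSym p (∏ q ∈ S, q) = 1 →
  (¬ 4 ∣ m ∨ jacobiSym 2 (∏ q ∈ S, q) = 1) →
  (∀ V : Finset ℕ, V ⊆ m.primeFactors → S ⊂ V → 2 ∉ V → Even (s.countP (Supp V))) →
  Even (s.countP (Supp S))

/-- **CL4** (120 lines), adaptation of the end of `Pool/Agent/N992/Rel.lean`. Let `n i4 = 4`, `i4 ∉ S`, `|S|` odd, and let an odd number of the `i ∈ S` have `2` a nonsquare modulo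
`n i`, i.e. `∏ i ∈ S, χ i 2 = -1`. (a) For `T' = T = S`, `i = i4` the last part of the proof of `WW_step` (`h0`; `u` has the coordinates `2` outside `i4`) gives `WW χ s S (insert i4 S) t = 2 WW χ s S S t`
(`2 = 1 - ∏ χ (u)`). (b) `2 ^ |S| FF S = ∑ T' ⊆ S, WW T' S` (`FF_expand`) and for `T' ⊂ S`: `WW T' S = 2 ^ |S| g`, `g ∈ closure {FF T'' : T'' ⊆ T'}` (`exists_g`, `WW_chain`; as in `rel_closure`),
so `WW S S = 2 ^ |S| (FF S - g₁)` with `g₁ ∈ closure {FF T : T ⊂ S}`. (c) `2 ^ (|S| + 1) FF (insert i4 S) = ∑ T' ⊆ insert i4 S, WW T' (insert i4 S)`; the term `T' = insert i4 S` is zero (`WW_even`), `T' = S` is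
`2 WW S S = 2 ^ (|S| + 1) (FF S - g₁)`, and every other `T'` gives `2 ^ (|S| + 1) g` with `g ∈ closure {FF T'' : T'' ⊆ T'}`, `T'' ≠ S` as `S ⊄ T'`. Divide. -/
def S_CL4 : Prop := ∀ (ι : Type) [Fintype ι] [DecidableEq ι] (n : ι → ℕ) [∀ i, NeZero (n i)],
  Adm n → Pairwise (fun i j => (n i).Coprime (n j)) →
  ∀ s : (∀ i, ZMod (n i)) → ℤ, PiDist n s →
  ∀ (i4 : ι) (S : Finset ι), n i4 = 4 → i4 ∉ S → Odd S.card →
  ∀ B : Finset ι, B ⊆ S → (∀ i ∈ S, i ∈ B ↔ ¬ IsSquare (2 : ZMod (n i))) → Odd B.card →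
  (fun t : (∀ i, ZMod (n i))ˣ => (∑ x ∈ QQ n (insert i4 S), s ((t : ∀ i, ZMod (n i)) * x)) -
      ∑ x ∈ QQ n S, s ((t : ∀ i, ZMod (n i)) * x)) ∈
    AddSubgroup.closure {f : (∀ i, ZMod (n i))ˣ → ℤ | ∃ T : Finset ι, T ⊂ insert i4 S ∧ T ≠ S ∧
      f = fun t : (∀ i, ZMod (n i))ˣ => ∑ x ∈ QQ n T, s ((t : ∀ i, ZMod (n i)) * x)}

open Classical in
/-- the support of the elements of odd order, modulo two -/
noncomputable def cp {m : ℕ} (a : ZMod m) : Finset ℕ → ZMod 2 :=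
  if 2 ∣ addOrderOf a ∨ a = 0 then 0 else Pi.single (addOrderOf a).primeFactors 1

/-- **OD4** (90 lines). `cp` is an odd distribution. `neg`: `addOrderOf_neg`, `- x = x` in `ZMod 2`. `half`: `a + a = 0` gives `a = 0` or even order. `dist` (`q` prime, `q d = m`): put `b = (d : ZMod m)`, of order `q`. (A) if
`q ^ 2 ∣ addOrderOf a` then the orders of all `a + i b` and of `q a` have the same prime divisors as that of `a` (for `q = 2` all even; for odd `q`, `q x = x` in `ZMod 2`). (B) otherwise `a = a' + j b` with `q ∤ addOrderOf a'`; the sum over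
`i < q` does not change if `a` is replaced by `a'` (`q b = 0`), the order of `a' + i b`, `0 < i < q`, is `q addOrderOf a'` and that of `q a = q a'` is `addOrderOf a'`: `q` odd: `cp a' + (q - 1) cp (a' + b) = cp a'`; `q = 2`: `cp a' + 0`. -/
def S_OD4 : Prop := ∀ (m : ℕ) [NeZero m], OddDist (cp (m := m))

/-- **EX4** (150 lines, helper919), from `CL4`, `OD4`: a modular Tate character (of characteristic zero) with an odd number of entries with support `S`. -/
def S_EX4 : Prop := ∀ (p m : ℕ) [NeZero m], p.Coprime m → 4 ∣ m →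
  ∀ S : Finset ℕ, S ⊆ m.primeFactors → 2 ∉ S → (∀ q ∈ S, q % 4 = 3) → Odd S.card →
  jacobiSym 2 (∏ q ∈ S, q) = -1 →
  ∃ h : Multiset (ZMod m), ModularTate p m h ∧ ¬ Even (h.countP (Supp S)) ∧
    ∀ V : Finset ℕ, 2 ∉ V → ¬ Even (h.countP (Supp V)) → V ⊆ S

/-- **REC3** (100 lines), from `PAR3`, `EXH`, `EX4`: `REC` again. The step: if `|S|` is even or `(p / ∏ S) = -1` use `EXH`; otherwise, if `4 ∣ m` and `(2 / ∏ S) = -1` use `EX4` (only the `V` without `2`
matter), otherwise `PAR3`. -/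
def S_REC3 : Prop := ∀ (p m : ℕ) [NeZero m], p.Coprime m → Deg3 m →
  ∀ s : Multiset (ZMod m), IsTate p m s →
  ∃ h : Multiset (ZMod m), (h = 0 ∨ ModularTate p m h) ∧
    ∀ S : Finset ℕ, S ⊆ m.primeFactors → 2 ∉ S → (∃ q ∈ S, jacobiSym p q = 1) →
      Even ((s + h).countP (Supp S))

/-- **FIN3** (10 lines after `FIN`), from `REC3`: the proof of `FIN` with `Deg3` instead of `Deg`. -/
def S_FIN3 : Prop := ∀ (p m : ℕ), p.Prime → 0 < m → p.Coprime m → Deg3 m →
  ∀ s : Multiset (ZMod m), IsTate p m s → s ≠ 0 →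
  ∃ N : ℕ, 0 < N ∧ p.Coprime N ∧ ∃ _ : NeZero (N * m),
    Pool.Agent.H916T.Generated (N * m)
      (fun t => SurfaceTate p (N * m) t ∨ ModularTate p (N * m) t ∨
        ∃ q : ℕ, q.Prime ∧ q ∣ N * m ∧ Standard q (N * m) t)
      (s.map fun a => ((N * a.val : ℕ) : ZMod (N * m)))

end Run7.h919.TF
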