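import Pool.Agent.Run7.h919.TF.Iface2
import Pool.Agent.H916K.Parity

/-!
# Project TF: OD4, the support of the elements of odd order modulo two is an odd distribution
-/

set_option autoImplicit false

namespace Run7.h919.TF

open Finset Pool.Agent.H916R2

/-- the prime divisors of the order -/
private noncomputable def sf {m : ℕ} (a : ZMod m) : Finset ℕ := (addOrderOf a).primeFactors

open Classical in
private noncomputable def GG (S : Finset ℕ) : Finset ℕ → ZMod 2 :=
  if 2 ∈ S ∨ S = ∅ then 0 else Pi.single S 1

private lemma ord_dvd {m : ℕ} [NeZero m] (x : ZMod m) : addOrderOf x ∣ m := by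
  rw [addOrderOf_dvd_iff_nsmul_eq_zero, nsmul_eq_mul, ZMod.natCast_self, zero_mul]

private lemma ord_ne {m : ℕ} [NeZero m] (x : ZMod m) : addOrderOf x ≠ 0 := by
  intro h
  have := ord_dvd x
  rw [h, zero_dvd_iff] at this
  exact NeZero.ne m this

private lemma cp_eq {m : ℕ} [NeZero m] (a : ZMod m) : cp a = GG (sf a) := by
  unfold cp GG sf
  have h1 : 2 ∈ (addOrderOf a).primeFactors ↔ 2 ∣ addOrderOf a := by
    rw [Nat.mem_primeFactors]
    exact ⟨fun h => h.2.1, fun h => ⟨Nat.prime_two, h, ord_ne a⟩⟩
  have h2 : (addOrderOf a).primeFactors = ∅ ↔ a = 0 := by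
    rw [Nat.primeFactors_eq_empty, or_iff_right (ord_ne a), AddMonoid.addOrderOf_eq_one_iff]
  by_cases h : 2 ∣ addOrderOf a ∨ a = 0
  · rw [if_pos h, if_pos (by rwa [h1, h2])]
  · rw [if_neg h, if_neg (by rwa [h1, h2])]

private lemma mem_sf {m : ℕ} [NeZero m] {p : ℕ} (hp : p.Prime) (x : ZMod m) :
    p ∈ sf x ↔ ((m / p ^ m.factorization p : ℕ) : ZMod m) * x ≠ 0 := by
  have h0 : ((m / p ^ m.factorization p : ℕ) : ZMod m) * x = 0 ↔ addOrderOf x ∣ m / p ^ m.factorization p := by
    rw [addOrderOf_dvd_iff_nsmul_eq_zero, nsmul_eq_mul]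
  have h1 : p ∈ sf x ↔ p ∣ addOrderOf x := by
    unfold sf
    rw [Nat.mem_primeFactors]
    exact ⟨fun h => h.2.1, fun h => ⟨hp, h, ord_ne x⟩⟩
  rw [h1, Ne, h0, iff_not_comm]
  have h2 : ¬ p ∣ m / p ^ m.factorization p := Nat.not_dvd_ordCompl hp (NeZero.ne m)
  constructor
  · intro h h4
    exact h2 (h4.trans h)
  · intro h
    have h3 : (addOrderOf x).Coprime (p ^ m.factorization p) :=
      Nat.Coprime.pow_right _ ((Nat.Prime.coprime_iff_not_dvd hp).2 h).symm
    refine h3.dvd_of_dvd_mul_left (m := p ^ m.factorization p) ?_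
    rw [Nat.ordProj_mul_ordCompl_eq_self]
    exact ord_dvd x

private lemma sf_prime {m : ℕ} {x : ZMod m} {r : ℕ} (h : r ∈ sf x) : r.Prime :=
  Nat.prime_of_mem_primeFactors h

theorem t_OD4 : S_OD4 := by
  intro m _
  refine ⟨?_, ?_, ?_⟩
  · intro a
    rw [cp_eq, cp_eq]
    have h1 : sf (-a) = sf a := by unfold sf; rw [addOrderOf_neg]
    rw [h1]
    funext S
    rw [Pi.neg_apply, ZMod.neg_eq_self_mod_two]
  · intro a ha
    unfold cp
    rw [if_pos]
    by_cases h0 : a = 0
    · exact Or.inr h0
    · left
      have h1 : addOrderOf a ∣ 2 := by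
        rw [addOrderOf_dvd_iff_nsmul_eq_zero, two_nsmul, ha]
      rcases (Nat.dvd_prime Nat.prime_two).1 h1 with h2 | h2
      · exact absurd (AddMonoid.addOrderOf_eq_one_iff.1 h2) h0
      · rw [h2]
  · intro q d hq hd a
    simp only [cp_eq]
    set M : ℕ := m / q ^ m.factorization q with hM
    have hqM : ¬ q ∣ M := Nat.not_dvd_ordCompl hq (NeZero.ne m)
    -- other primes
    have hr : ∀ r : ℕ, r.Prime → r ≠ q → ∀ i : ℕ,
        (r ∈ sf (a + (i : ZMod m) * (d : ZMod m)) ↔ r ∈ sf a) := by
      intro r hr1 hr2 i
      rw [mem_sf hr1, mem_sf hr1]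
      have h1 : q ∣ m / r ^ m.factorization r := by
        have h2 : q.Coprime (r ^ m.factorization r) :=
          Nat.Coprime.pow_right _ ((Nat.coprime_primes hq hr1).2 (Ne.symm hr2))
        refine h2.dvd_of_dvd_mul_left (m := r ^ m.factorization r) ?_
        rw [Nat.ordProj_mul_ordCompl_eq_self]
        exact ⟨d, hd.symm⟩
      have h3 : ((m / r ^ m.factorization r : ℕ) : ZMod m) * (d : ZMod m) = 0 :=
        (Pool.Agent.H916K.mul_d_eq_zero hd _).2 h1
      have h4 : ((m / r ^ m.factorization r : ℕ) : ZMod m) * (a + (i : ZMod m) * (d : ZMod m)) =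
          ((m / r ^ m.factorization r : ℕ) : ZMod m) * a := by
        linear_combination (i : ZMod m) * h3
      rw [h4]
    have hrq : ∀ r : ℕ, r.Prime → r ≠ q → (r ∈ sf ((q : ZMod m) * a) ↔ r ∈ sf a) := by
      intro r hr1 hr2
      constructor
      · intro h
        rw [mem_sf hr1] at h ⊢
        intro h5
        apply h
        linear_combination (q : ZMod m) * h5
      · intro h
        unfold sf at h ⊢
        rw [Nat.mem_primeFactors] at h ⊢
        refine ⟨hr1, ?_, ord_ne _⟩
        have h1 : addOrderOf a ∣ q * addOrderOf ((q : ZMod m) * a) := by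
          rw [addOrderOf_dvd_iff_nsmul_eq_zero, mul_comm, mul_nsmul', nsmul_eq_mul, nsmul_eq_mul]
          have := addOrderOf_nsmul_eq_zero ((q : ZMod m) * a)
          rw [nsmul_eq_mul] at this
          exact this
        have h2 : r ∣ q * addOrderOf ((q : ZMod m) * a) := h.2.1.trans h1
        rcases (Nat.Prime.dvd_mul hr1).1 h2 with h3 | h3
        · exact absurd ((Nat.prime_dvd_prime_iff_eq hr1 hq).1 h3) hr2
        · exact h3
    set S0 : Finset ℕ := (sf a).erase q with hS0
    have hA : ∀ i : ℕ, sf (a + (i : ZMod m) * (d : ZMod m)) =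
        if (M : ZMod m) * (a + (i : ZMod m) * (d : ZMod m)) = 0 then S0 else insert q S0 := by
      intro i
      ext r
      by_cases hrp : r.Prime
      · by_cases hrq' : r = q
        · subst hrq'
          rw [mem_sf hq]
          split_ifs with h
          · simp [hS0]
            exact h
          · simp
            exact h
        · rw [hr r hrp hrq' i]
          split_ifs with h
          · simp [hS0, hrq']
          · simp [hS0, hrq']
      · have h1 : r ∉ sf (a + (i : ZMod m) * (d : ZMod m)) := fun h => hrp (sf_prime h)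
        have h2 : r ∉ sf a := fun h => hrp (sf_prime h)
        have h3 : r ≠ q := fun h => hrp (h ▸ hq)
        split_ifs with h
        · simp [hS0, h1, h2]
        · simp [hS0, h1, h2, h3]
    have hB : sf ((q : ZMod m) * a) =
        if (M : ZMod m) * ((q : ZMod m) * a) = 0 then S0 else insert q S0 := by
      ext r
      by_cases hrp : r.Prime
      · by_cases hrq' : r = q
        · subst hrq'
          rw [mem_sf hq]
          split_ifs with h
          · simp [hS0]
            exact h
          · simp
            exact h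
        · rw [hrq r hrp hrq']
          split_ifs with h
          · simp [hS0, hrq']
          · simp [hS0, hrq']
      · have h1 : r ∉ sf ((q : ZMod m) * a) := fun h => hrp (sf_prime h)
        have h2 : r ∉ sf a := fun h => hrp (sf_prime h)
        have h3 : r ≠ q := fun h => hrp (h ▸ hq)
        split_ifs with h
        · simp [hS0, h1, h2]
        · simp [hS0, h1, h2, h3]
    have hC := Pool.Agent.H916K.card_shift hq hd hqM a
    have hq1 : (q - 1) • GG (insert q S0) = 0 := by
      rcases hq.eq_two_or_odd' with h2 | h2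
      · have : GG (insert q S0) = 0 := by
          unfold GG
          rw [if_pos]
          left
          rw [h2]
          exact mem_insert_self _ _
        rw [this, smul_zero]
      · obtain ⟨k, hk⟩ := h2
        have : q - 1 = 2 * k := by omega
        rw [this]
        funext S
        rw [Pi.smul_apply, mul_comm, mul_nsmul', two_nsmul]
        simp [CharTwo.add_self_eq_zero]
    have hsum : ∑ i ∈ range q, GG (sf (a + (i : ZMod m) * (d : ZMod m))) =
        ((range q).filter fun i : ℕ => (M : ZMod m) * (a + (i : ZMod m) * (d : ZMod m)) = 0).card • GG S0 +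
        ((range q).filter fun i : ℕ => ¬ (M : ZMod m) * (a + (i : ZMod m) * (d : ZMod m)) = 0).card •
          GG (insert q S0) := by
      rw [← sum_filter_add_sum_filter_not (range q)
        (fun i : ℕ => (M : ZMod m) * (a + (i : ZMod m) * (d : ZMod m)) = 0)]
      congr 1
      · rw [← sum_const]
        apply sum_congr rfl
        intro i hi
        rw [hA, if_pos (mem_filter.1 hi).2]
      · rw [← sum_const]
        apply sum_congr rfl
        intro i hi
        rw [hA, if_neg (mem_filter.1 hi).2]
    have hcard : ((range q).filter fun i : ℕ => (M : ZMod m) * (a + (i : ZMod m) * (d : ZMod m)) = 0).card +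
        ((range q).filter fun i : ℕ => ¬ (M : ZMod m) * (a + (i : ZMod m) * (d : ZMod m)) = 0).card = q := by
      rw [card_filter_add_card_filter_not, card_range]
    rw [hsum, hB]
    have hq2 : q = (q - 1) + 1 := by have := hq.one_lt; omega
    split_ifs at hC ⊢ with h
    · rw [hC] at hcard ⊢
      have h5 : ((range q).filter fun i : ℕ => ¬ (M : ZMod m) * (a + (i : ZMod m) * (d : ZMod m)) = 0).card = q - 1 := by
        omega
      rw [h5, hq1, one_smul, add_zero]
    · rw [hC] at hcard ⊢
      have h5 : ((range q).filter fun i : ℕ => ¬ (M : ZMod m) * (a + (i : ZMod m) * (d : ZMod m)) = 0).card = (q - 1) + 1 := by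
        omega
      rw [h5, add_smul, hq1, one_smul, zero_smul, zero_add, zero_add]

end Run7.h919.TF
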