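import Pool.Agent.Run7.h919.TF.Iface2
import Pool.Agent.Run7.h957.TF.PARO

/-!
# The parity lemma, all powers of two
-/

set_option autoImplicit false

namespace Run7.h919.TF

open Finset Pool.Agent.H916R2 Pool.Agent.H916T Pool.Agent.H916U Pool.Agent.H916Z Pool.Agent.H916Q Pool.Agent.N992

theorem t_PAR3 : S_PARO → S_PAR3 := by
  intro hPARO p m _ hp hdeg s hs S hS h2 hodd hp1 hcase hV
  by_cases h4 : 4 ∣ m
  · have h21 : jacobiSym 2 (∏ q ∈ S, q) = 1 := by
      rcases hcase with h | h
      · exact absurd h4 h
      · exact h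
    have hSp : ∀ q ∈ S, q.Prime := fun q hq => Nat.prime_of_mem_primeFactors (hS hq)
    have hS3 : ∀ q ∈ S, q % 4 = 3 := by
      intro q hq
      rcases hdeg q (hSp q hq) (Nat.dvd_of_mem_primeFactors (hS hq)) with h | h
      · exact absurd (h ▸ hq) h2
      · exact h
    have hne : S.Nonempty := by
      rw [← card_pos]
      exact hodd.pos
    have hneg : jacobiSym (-1) (∏ q ∈ S, q) = -1 := by
      have hgen : ∀ T : Finset ℕ, T ⊆ S →
          jacobiSym (-1) (∏ q ∈ T, q) = (-1) ^ T.card := by
        intro T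
        induction T using Finset.induction_on with
        | empty => intro _; simp
        | insert q T hq ih =>
          intro hT
          have hqS : q ∈ S := hT (mem_insert_self q T)
          have hTS : T ⊆ S := fun x hx => hT (mem_insert_of_mem hx)
          have e1 : NeZero q := ⟨(hSp q hqS).ne_zero⟩
          have e2 : NeZero (∏ q ∈ T, q) :=
            ⟨prod_ne_zero_iff.mpr fun x hx => (hSp x (hTS hx)).ne_zero⟩
          rw [prod_insert hq, jacobiSym.mul_right, ih hTS, card_insert_of_notMem hq, pow_succ,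
            jacobiSym.at_neg_one (Nat.odd_iff.mpr (by have := hS3 q hqS; omega)),
            ZMod.χ₄_nat_three_mod_four (hS3 q hqS)]
          ring
      rw [hgen S (Subset.refl _), hodd.neg_one_pow]
    refine hPARO p m hp s hs S hS h2 hne hneg hp1 ?_ hV
    intro j hjm hjS
    have hjp := Nat.prime_of_mem_primeFactors hjm
    by_cases hj2 : j = 2
    · left
      rw [hj2]
      exact h21
    have hj3 : j % 4 = 3 := by
      rcases hdeg j hjp (Nat.dvd_of_mem_primeFactors hjm) with h | h
      · exact absurd h hj2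
      · exact h
    have hjac : jacobiSym (j : ℤ) (∏ q ∈ S, q) = 1 ∨ jacobiSym (j : ℤ) (∏ q ∈ S, q) = -1 := by
      refine jacobiSym.eq_one_or_neg_one ?_
      rw [Int.gcd_natCast_natCast]
      refine Nat.Coprime.prod_right fun q hq => ?_
      exact (Nat.coprime_primes hjp (hSp q hq)).mpr fun h => hjS (h ▸ hq)
    rcases hjac with h9 | h9
    · left; exact h9
    · right; exact ⟨hj3, h9⟩
  · exact Run7.h957.TF.t_PAR hPARO p m hp ⟨hdeg, Or.inl h4⟩ s hs S hS h2 hodd hp1 hV

end Run7.h919.TF
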