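import Pool.Agent.Run7.h919.TF.EX4
import Pool.Agent.Run7.h919.TF.EXN
import Pool.Agent.Run7.h919.TF.PAR3
import Pool.Agent.Run7.h919.TF.OD4
import Pool.Agent.Run7.h942.TF.FIN3
import Pool.Agent.Run7.h942.TF.REC3
import Pool.Agent.Run7.h354.TF.CL4
import Pool.Agent.Run7.h639.TF.EXH
import Pool.Agent.Run7.h639.TF.AVR
import Pool.Agent.Run7.h957.TF.PARO

/-!
# Project TF: the assembly
-/

set_option autoImplicit false

namespace Run7.h919.TF

theorem main_fin3 : S_FIN3 :=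
  Pool.Agent.Run7.h942.TF.t_FIN3
    (Pool.Agent.Run7.h942.TF.t_REC3 (t_PAR3 Run7.h957.TF.t_PARO)
      (Run7.h639.TF.t_EXH (t_EXN Run7.h639.TF.t_AVR))
      (t_EX4 Pool.Agent.Run7.h354.TF.t_CL4 t_OD4))

end Run7.h919.TF
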